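import Pool.Agent.Work.MP_f714fc_ag.Tw.Sec

/-!
# Constructors of sheaves of modules and of their morphisms from explicit sections
-/

open CategoryTheory Limits TopologicalSpace AlgebraicGeometry Opposite

universe u

namespace Fdim

variable {X : Scheme.{u}}

/-- explicit data of a sheaf of modules on `X` -/
structure MkData (X : Scheme.{u}) where
  S : X.Opens → Type u
  [ab : ∀ U, AddCommGroup (S U)]
  [mod : ∀ U, Module Γ(X, U) (S U)]
  res : ∀ {U V : X.Opens}, V ≤ U → S U →+ S V
  res_smul : ∀ {U V : X.Opens} (h : V ≤ U) (r : Γ(X, U)) (s : S U),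
    res h (r • s) = rO h r • res h s
  res_self : ∀ {U : X.Opens} (h : U ≤ U) (s : S U), res h s = s
  res_res : ∀ {U V W : X.Opens} (h : V ≤ U) (h' : W ≤ V) (s : S U),
    res h' (res h s) = res (h'.trans h) s
  sep : ∀ {ι : Type u} {V : X.Opens} {U : ι → X.Opens} (hU : ∀ i, U i ≤ V) (_ : V ≤ ⨆ i, U i)
    {s t : S V}, (∀ i, res (hU i) s = res (hU i) t) → s = t
  glue : ∀ {ι : Type u} {V : X.Opens} {U : ι → X.Opens} (hU : ∀ i, U i ≤ V) (_ : V ≤ ⨆ i, U i)
    (s : ∀ i, S (U i)),
    (∀ i j, res (inf_le_left : U i ⊓ U j ≤ U i) (s i) =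
      res (inf_le_right : U i ⊓ U j ≤ U j) (s j)) → ∃ t : S V, ∀ i, res (hU i) t = s i

attribute [instance] MkData.ab MkData.mod

namespace MkData

variable (D : MkData X)

/-- the underlying presheaf of abelian groups -/
noncomputable def psh : TopCat.Presheaf Ab.{u} X where
  obj U := AddCommGrpCat.of (D.S U.unop)
  map f := AddCommGrpCat.ofHom (D.res (leOfHom f.unop))
  map_id U := by
    ext s
    exact D.res_self _ s
  map_comp f g := by
    ext s
    exact (D.res_res _ _ s).symm

instance (U : X.Opensᵒᵖ) : Module (X.ringCatSheaf.obj.obj U) (D.psh.obj U) :=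
  D.mod U.unop

/-- the sheaf of modules given by explicit data -/
noncomputable def md : X.Modules where
  val := PresheafOfModules.ofPresheaf (R := X.ringCatSheaf.obj) D.psh
    (fun _ _ f r m => D.res_smul (leOfHom f.unop) r m)
  isSheaf := by
    change TopCat.Presheaf.IsSheaf (C := Ab.{u}) (X := X) D.psh
    rw [TopCat.Presheaf.isSheaf_iff_isSheafUniqueGluing]
    intro ι U s hs
    obtain ⟨t, ht⟩ := D.glue (V := iSup U) (U := U) (fun i => le_iSup U i) le_rfl s
      (fun i j => hs i j)
    exact ⟨t, ht, fun t' ht' => D.sep (V := iSup U) (U := U) (fun i => le_iSup U i) le_rfl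
      (fun i => (ht' i).trans (ht i).symm)⟩

theorem sec_md (U : X.Opens) : (Γ(D.md, U) : Type u) = D.S U := rfl

theorem rs_md {U V : X.Opens} (h : V ≤ U) (s : D.S U) :
    (rs D.md h : D.S U → D.S V) s = D.res h s := rfl

end MkData

/-- a morphism from explicit additive, linear, compatible maps on sections -/
noncomputable def homMk {M N : X.Modules} (f : ∀ U, Γ(M, U) →+ Γ(N, U))
    (hl : ∀ U (r : Γ(X, U)) s, f U (r • s) = r • f U s)
    (hr : ∀ {U V : X.Opens} (h : V ≤ U) s, f V (rs M h s) = rs N h (f U s)) : M ⟶ N where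
  val := PresheafOfModules.homMk
    { app := fun U => AddCommGrpCat.ofHom (f U.unop)
      naturality := fun U V g => by
        ext s
        exact hr (leOfHom g.unop) s }
    (fun U r s => hl U.unop r s)

@[simp] theorem ap_homMk {M N : X.Modules} (f : ∀ U, Γ(M, U) →+ Γ(N, U))
    (hl : ∀ U (r : Γ(X, U)) s, f U (r • s) = r • f U s)
    (hr : ∀ {U V : X.Opens} (h : V ≤ U) s, f V (rs M h s) = rs N h (f U s)) (U : X.Opens)
    (s : Γ(M, U)) : ap (homMk f hl hr) U s = f U s := rfl

/-- an isomorphism from bijective maps on sections -/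
theorem isIso_of_bij {M N : X.Modules} (φ : M ⟶ N) (h : ∀ U, Function.Bijective (ap φ U)) :
    IsIso φ := by
  rw [Scheme.Modules.Hom.isIso_iff_isIso_app]
  intro U
  rw [ConcreteCategory.isIso_iff_bijective]
  exact h U

end Fdim
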