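import Pool.Agent.Work.MP_f714fc_ag.Tw.TwFun
import Pool.Agent.Work.MP_f714fc_ag.Geo.CohAb
import Pool.Agent.Work.MP_f714fc_ag.Geo.FinCover

/-!
# Local triviality of the twist; the twist of coherent sheaves
-/

open CategoryTheory Limits TopologicalSpace AlgebraicGeometry Opposite

attribute [-instance] CategoryTheory.catToReflQuiver

universe u

namespace Fdim

noncomputable section

variable {X : Scheme.{u}} {ι : Type u} {U : ι → X.Opens}

namespace Coc

variable {g h : Coc U} {M N : X.Modules}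

/-- the section of the twist over `W ≤ U i` with a given component -/
def tinv (g : Coc U) (M : X.Modules) (i : ι) {W : X.Opens} (hi : W ≤ U i) (m : Γ(M, W)) :
    Γ((tw g).obj M, W) :=
  tmk (fun j => g.v j i inf_le_right (inf_le_left.trans hi) • rs M inf_le_left m) (by
    intro j l W' hW hj hl
    simp only [rs_smul, rO_v, rs_rs]
    rw [← mul_smul, g.v_v j l i hj hl (hW.trans hi)])

theorem tev_tinv (i j : ι) {W W' : X.Opens} (hi : W ≤ U i) (m : Γ(M, W)) (hV : W' ≤ W)
    (hj : W' ≤ U j) :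
    tev (tinv g M i hi m) j hV hj = g.v j i hj (hV.trans hi) • rs M hV m := by
  rw [tinv, tev_tmk, rs_smul, rO_v, rs_rs]

/-- local triviality: sections over `W ≤ U i` -/
def tevL (g : Coc U) (M : X.Modules) (i : ι) {W : X.Opens} (hi : W ≤ U i) :
    Γ((tw g).obj M, W) ≃ₗ[Γ(X, W)] Γ(M, W) where
  toFun s := tev s i le_rfl hi
  map_add' s t := tev_add s t i le_rfl hi
  map_smul' r s := by
    rw [tev_smul, rO_self]
    rfl
  invFun m := tinv g M i hi m
  left_inv s := text (fun j => by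
    rw [tev_tinv, rs_tev]
    exact (tev_eq s j i _ _ _).symm)
  right_inv m := by
    beta_reduce
    rw [tev_tinv, v_self, one_smul, rs_self]

@[simp] theorem tevL_apply (i : ι) {W : X.Opens} (hi : W ≤ U i) (s : Γ((tw g).obj M, W)) :
    tevL g M i hi s = tev s i le_rfl hi := rfl

theorem tev_tevL_symm (i j : ι) {W W' : X.Opens} (hi : W ≤ U i) (m : Γ(M, W)) (hV : W' ≤ W)
    (hj : W' ≤ U j) :
    tev ((tevL g M i hi).symm m) j hV hj = g.v j i hj (hV.trans hi) • rs M hV m :=
  tev_tinv i j hi m hV hj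

theorem tevL_rs (i : ι) {W W' : X.Opens} (hi : W ≤ U i) (h : W' ≤ W) (s : Γ((tw g).obj M, W)) :
    tevL g M i (h.trans hi) (rs _ h s) = rs M h (tevL g M i hi s) := by
  simp

theorem tevL_map (φ : M ⟶ N) (i : ι) {W : X.Opens} (hi : W ≤ U i) (s : Γ((tw g).obj M, W)) :
    tevL g N i hi (ap ((tw g).map φ) W s) = ap φ W (tevL g M i hi s) := by
  simp

theorem image_le_of_opensRange {Y : Scheme.{u}} (f : Y ⟶ X) [IsOpenImmersion f] {W : X.Opens}
    (hf : f.opensRange ≤ W) (V : Y.Opens) : f ''ᵁ V ≤ W :=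
  (f.image_le_opensRange V).trans hf

/-- the restriction of the twist to an open subscheme on which the cocycle is trivial -/
def resHom (g : Coc U) (M : X.Modules) (i : ι) {Y : Scheme.{u}} (f : Y ⟶ X) [IsOpenImmersion f]
    (hf : f.opensRange ≤ U i) : ((tw g).obj M).restrict f ⟶ M.restrict f :=
  homMk (M := ((tw g).obj M).restrict f) (N := M.restrict f)
    (fun V => ((tevL g M i (image_le_of_opensRange f hf V)).toLinearMap.toAddMonoidHom :
      Γ((tw g).obj M, f ''ᵁ V) →+ Γ(M, f ''ᵁ V)))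
    (fun V r s => (tevL g M i (image_le_of_opensRange f hf V)).map_smul ((f.appIso V).inv r) s)
    (fun {V _} h s => tevL_rs i (image_le_of_opensRange f hf V) (f.image_mono h) s)

instance isIso_resHom (g : Coc U) (M : X.Modules) (i : ι) {Y : Scheme.{u}} (f : Y ⟶ X)
    [IsOpenImmersion f] (hf : f.opensRange ≤ U i) : IsIso (resHom g M i f hf) :=
  isIso_of_bij _ (fun V => (tevL g M i (image_le_of_opensRange f hf V)).bijective)

theorem isQuasicoherent_tw (g : Coc U) (hU : ⨆ i, U i = ⊤) (M : X.Modules)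
    [M.IsQuasicoherent] : ((tw g).obj M).IsQuasicoherent := by
  apply isQuasicoherent_of_affine
  intro x
  obtain ⟨i, hi⟩ : ∃ i, x ∈ U i := by
    have hx : x ∈ (⊤ : X.Opens) := trivial
    rw [← hU] at hx
    exact Opens.mem_iSup.1 hx
  obtain ⟨W, hW, hxW, hWU⟩ := exists_isAffineOpen_mem_and_subset hi
  refine ⟨W, hxW, hW, ?_⟩
  have hr : hW.fromSpec.opensRange ≤ U i := by
    rw [hW.opensRange_fromSpec]
    exact hWU
  have h1 : (M.restrict hW.fromSpec).IsQuasicoherent := inferInstance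
  exact (SheafOfModules.isQuasicoherent (Spec Γ(X, W)).ringCatSheaf).prop_of_iso
    (asIso (resHom g M i hW.fromSpec hr)).symm h1

theorem finite_tw_of_isCoh (g : Coc U) (hU : ⨆ i, U i = ⊤) {M : X.Modules} (hM : IsCoh X M)
    (W : X.affineOpens) : Module.Finite Γ(X, W) Γ((tw g).obj M, W) := by
  have h0 : M.IsQuasicoherent := hM.1
  have h1 : ((tw g).obj M).IsQuasicoherent := isQuasicoherent_tw g hU M
  apply finite_of_cover _ W.2
  intro x _
  obtain ⟨i, hi⟩ : ∃ i, x ∈ U i := by
    have hx : x ∈ (⊤ : X.Opens) := trivial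
    rw [← hU] at hx
    exact Opens.mem_iSup.1 hx
  refine ⟨U i, hi, fun V hV hVi _ => ?_⟩
  have h2 : Module.Finite Γ(X, V) Γ(M, V) := hM.2 ⟨V, hV⟩
  exact Module.Finite.equiv (tevL g M i hVi).symm

/-- the twist of a coherent sheaf is coherent -/
theorem isCoh_tw (g : Coc U) (hU : ⨆ i, U i = ⊤) {M : X.Modules} (hM : IsCoh X M) :
    IsCoh X ((tw g).obj M) := by
  have h0 : M.IsQuasicoherent := hM.1
  exact ⟨isQuasicoherent_tw g hU M, finite_tw_of_isCoh g hU hM⟩

end Coc

end

end Fdim
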