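import Pool.Agent.Work.MP_f714fc_ag.Tw.TwFun

/-!
# The twist: unit, equivalence, sections acting as natural transformations
-/

open CategoryTheory Limits TopologicalSpace AlgebraicGeometry Opposite

attribute [-instance] CategoryTheory.catToReflQuiver

universe u

namespace Fdim

variable {X : Scheme.{u}} {ι : Type u} (U : ι → X.Opens)

/-- the family of open subsets covers the scheme -/
class IsCov : Prop where
  cov : ⨆ i, U i = ⊤

variable {U}

namespace Coc

theorem cov_inf [IsCov U] (V : X.Opens) : V ≤ ⨆ i, V ⊓ U i := by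
  rw [← inf_iSup_eq, IsCov.cov (U := U), inf_top_eq]

/-- twist of sections on a smaller family: extensionality -/
theorem text' {g : Coc U} {M : X.Modules} {V : X.Opens} {s t : Γ((tw g).obj M, V)}
    (h : ∀ i, tev s i (inf_le_left : V ⊓ U i ≤ V) inf_le_right =
      tev t i (inf_le_left : V ⊓ U i ≤ V) inf_le_right) : s = t := text h

/-- extensionality of morphisms into a twist -/
theorem hom_text {g : Coc U} {M N : X.Modules} {φ ψ : N ⟶ (tw g).obj M}
    (h : ∀ (V : X.Opens) (s : Γ(N, V)) (i : ι), V ≤ U i →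
      ∀ (hi : V ≤ U i), tev (ap φ V s) i le_rfl hi = tev (ap ψ V s) i le_rfl hi) : φ = ψ :=
  hom_ext' (fun V s => text (fun i => by
    have := h (V ⊓ U i) (rs N inf_le_left s) i inf_le_right inf_le_right
    rwa [ap_rs, ap_rs, tev_rs, tev_rs] at this))

/-! ### the unit -/

/-- the unit morphism of the trivial twist -/
noncomputable def oneHom {g : Coc U} (e : g = 1) (M : X.Modules) : M ⟶ (tw g).obj M :=
  lift g (fun _ W _ => AddMonoidHom.id Γ(M, W)) (fun _ _ _ _ _ => rfl) (fun _ _ _ _ _ _ => rfl)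
    (fun i j W hi hj s => by
      subst e
      simp)

@[simp] theorem tev_oneHom {g : Coc U} (e : g = 1) (M : X.Modules) {V : X.Opens} (s : Γ(M, V))
    (i : ι) {W : X.Opens} (hV : W ≤ V) (hi : W ≤ U i) :
    tev (ap (oneHom e M) V s) i hV hi = rs M hV s :=
  tev_lift _ _ _ _ s i hV hi

instance isIso_oneHom [IsCov U] {g : Coc U} (e : g = 1) (M : X.Modules) :
    IsIso (oneHom e M) := by
  subst e
  apply isIso_of_bij
  intro V
  constructor
  · intro s t hst
    apply sec_ext M (U := fun i => V ⊓ U i) (fun _ => inf_le_left) (cov_inf V)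
    intro i
    have := congrArg (fun x => tev x i (inf_le_left : V ⊓ U i ≤ V) inf_le_right) hst
    simpa using this
  · intro s
    obtain ⟨t, ht⟩ := exists_glue M (V := V) (U := fun i => V ⊓ U i) (fun _ => inf_le_left)
      (cov_inf V) (fun i => tev s i inf_le_left inf_le_right) (by
        intro i j
        simp only [rs_tev]
        rw [tev_eq s i j _ (inf_le_left.trans inf_le_right) (inf_le_right.trans inf_le_right)]
        simp)
    refine ⟨t, text (fun i => ?_)⟩
    rw [tev_oneHom]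
    exact ht i

/-- the trivial twist is the identity -/
noncomputable def oneIsoApp [IsCov U] {g : Coc U} (e : g = 1) (M : X.Modules) :
    M ≅ (tw g).obj M :=
  haveI := isIso_oneHom e M
  asIso (oneHom e M)

/-- the trivial twist is the identity -/
noncomputable def oneIso [IsCov U] {g : Coc U} (e : g = 1) : 𝟭 X.Modules ≅ tw g :=
  NatIso.ofComponents (fun M => oneIsoApp e M) (fun {M N} φ => by
    change φ ≫ oneHom e N = oneHom e M ≫ (tw g).map φ
    exact hom_text (fun V s i _ hi => by simp))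

@[simp] theorem oneIso_hom_app [IsCov U] {g : Coc U} (e : g = 1) (M : X.Modules) :
    (oneIso e).hom.app M = oneHom e M := rfl

@[simp] theorem mulIso_hom_app {g h k : Coc U} (e : g * h = k) (M : X.Modules) :
    (mulIso e).hom.app M = mulHom e M := rfl

@[simp] theorem mulIso_inv_app {g h k : Coc U} (e : g * h = k) (M : X.Modules) :
    (mulIso e).inv.app M = mulInv e M := rfl

/-- the twist as an autoequivalence -/
noncomputable def twEquiv [IsCov U] (g : Coc U) : X.Modules ≌ X.Modules :=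
  CategoryTheory.Equivalence.mk (tw g) (tw g⁻¹)
    (oneIso rfl ≪≫ (mulIso (inv_mul_cancel g)).symm)
    (mulIso (mul_inv_cancel g) ≪≫ (oneIso rfl).symm)

instance [IsCov U] (g : Coc U) : (tw g).IsEquivalence :=
  inferInstanceAs (twEquiv g).functor.IsEquivalence

theorem tev_eqToHom {g g' : Coc U} (e : g = g') {M : X.Modules}
    (h : (tw g).obj M = (tw g').obj M) {V : X.Opens} (s : Γ((tw g).obj M, V)) (i : ι)
    {W : X.Opens} (hV : W ≤ V) (hi : W ≤ U i) :
    tev (ap (eqToHom h) V s) i hV hi = tev s i hV hi := by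
  subst e
  simp

/-! ### sections -/

/-- the structure sheaf -/
noncomputable abbrev OO (X : Scheme.{u}) : X.Modules := SheafOfModules.unit.{u} X.ringCatSheaf

theorem rs_OO {V W : X.Opens} (h : W ≤ V) (s : Γ(X, V)) :
    (rs (OO X) h : Γ(OO X, V) → Γ(OO X, W)) s = rO h s := rfl

theorem smul_OO {V : X.Opens} (r : Γ(X, V)) (s : Γ(X, V)) :
    (r • (s : Γ(OO X, V)) : Γ(OO X, V)) = r * s := rfl

/-- the value of a section of the twist of the structure sheaf -/
noncomputable def sv {g : Coc U} {V : X.Opens} (σ : Γ((tw g).obj (OO X), V)) (i : ι)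
    {W : X.Opens} (hV : W ≤ V) (hi : W ≤ U i) : Γ(X, W) :=
  tev σ i hV hi

@[simp] theorem rO_sv {g : Coc U} {V : X.Opens} (σ : Γ((tw g).obj (OO X), V)) (i : ι)
    {W W' : X.Opens} (hV : W ≤ V) (hi : W ≤ U i) (h : W' ≤ W) :
    rO h (sv σ i hV hi) = sv σ i (h.trans hV) (h.trans hi) :=
  rs_tev σ i hV hi h

theorem sv_eq {g : Coc U} {V : X.Opens} (σ : Γ((tw g).obj (OO X), V)) (i j : ι)
    {W : X.Opens} (hV : W ≤ V) (hi : W ≤ U i) (hj : W ≤ U j) :
    sv σ i hV hi = g.v i j hi hj * sv σ j hV hj :=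
  tev_eq σ i j hV hi hj

@[simp] theorem sv_rs {g : Coc U} {V V' : X.Opens} (h : V' ≤ V) (σ : Γ((tw g).obj (OO X), V))
    (i : ι) {W : X.Opens} (hV : W ≤ V') (hi : W ≤ U i) :
    sv (rs ((tw g).obj (OO X)) h σ) i hV hi = sv σ i (hV.trans h) hi :=
  tev_rs h σ i hV hi

@[simp] theorem sv_add {g : Coc U} {V : X.Opens} (σ τ : Γ((tw g).obj (OO X), V)) (i : ι)
    {W : X.Opens} (hV : W ≤ V) (hi : W ≤ U i) :
    sv (σ + τ) i hV hi = sv σ i hV hi + sv τ i hV hi :=
  tev_add σ τ i hV hi

@[simp] theorem sv_smul {g : Coc U} {V : X.Opens} (r : Γ(X, V)) (σ : Γ((tw g).obj (OO X), V))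
    (i : ι) {W : X.Opens} (hV : W ≤ V) (hi : W ≤ U i) :
    sv (r • σ) i hV hi = rO hV r * sv σ i hV hi :=
  tev_smul r σ i hV hi

theorem sv_ext {g : Coc U} {V : X.Opens} {σ τ : Γ((tw g).obj (OO X), V)}
    (h : ∀ i, sv σ i (inf_le_left : V ⊓ U i ≤ V) inf_le_right =
      sv τ i (inf_le_left : V ⊓ U i ≤ V) inf_le_right) : σ = τ :=
  text h

/-- multiplication by a section of the twist of the structure sheaf -/
noncomputable def mulSec {g : Coc U} (σ : Γ((tw g).obj (OO X), (⊤ : X.Opens))) (M : X.Modules) :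
    M ⟶ (tw g).obj M :=
  lift g (fun i W hi => DistribSMul.toAddMonoidHom Γ(M, W) (sv σ i le_top hi))
    (fun i W hi r s => by
      simp only [DistribSMul.toAddMonoidHom_apply]
      rw [smul_comm])
    (fun i W W' hi h s => by
      simp only [DistribSMul.toAddMonoidHom_apply, rs_smul, rO_sv])
    (fun i j W hi hj s => by
      simp only [DistribSMul.toAddMonoidHom_apply]
      rw [sv_eq σ i j le_top hi hj, mul_smul])

@[simp] theorem tev_mulSec {g : Coc U} (σ : Γ((tw g).obj (OO X), (⊤ : X.Opens))) (M : X.Modules)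
    {V : X.Opens} (s : Γ(M, V)) (i : ι) {W : X.Opens} (hV : W ≤ V) (hi : W ≤ U i) :
    tev (ap (mulSec σ M) V s) i hV hi = sv σ i le_top hi • rs M hV s :=
  tev_lift _ _ _ _ s i hV hi

theorem mulSec_naturality {g : Coc U} (σ : Γ((tw g).obj (OO X), (⊤ : X.Opens)))
    {M N : X.Modules} (φ : M ⟶ N) : φ ≫ mulSec σ N = mulSec σ M ≫ (tw g).map φ :=
  hom_text (fun V s i _ hi => by simp)

theorem mulSec_add {g : Coc U} (σ τ : Γ((tw g).obj (OO X), (⊤ : X.Opens))) (M : X.Modules) :
    mulSec (σ + τ) M = mulSec σ M + mulSec τ M :=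
  hom_text (fun V s i _ hi => by simp [add_smul])

/-- the section of the twist defined by a morphism `O → tw g O` -/
noncomputable def secOf {g : Coc U} (f : OO X ⟶ (tw g).obj (OO X)) :
    Γ((tw g).obj (OO X), (⊤ : X.Opens)) :=
  ap f ⊤ (1 : Γ(X, ⊤))

theorem ap_OO {N : X.Modules} (f : OO X ⟶ N) (V : X.Opens) (s : Γ(X, V)) :
    ap f V s = s • rs N le_top (ap f ⊤ (1 : Γ(X, ⊤))) := by
  rw [← ap_rs, ← ap_smul]
  congr 1
  change s = s * rO le_top (1 : Γ(X, ⊤))
  rw [map_one]
  exact (mul_one _).symm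

theorem mulSec_secOf {g : Coc U} (f : OO X ⟶ (tw g).obj (OO X)) :
    mulSec (secOf f) (OO X) = f :=
  hom_text (fun V s i _ hi => by
    rw [tev_mulSec, ap_OO f V s, tev_smul, tev_rs, rs_self, rO_self]
    exact mul_comm (sv (secOf f) i le_top hi) (s : Γ(X, V)))

theorem secOf_mulSec {g : Coc U} (σ : Γ((tw g).obj (OO X), (⊤ : X.Opens))) :
    secOf (mulSec σ (OO X)) = σ :=
  sv_ext (fun i => by
    change tev (ap (mulSec σ (OO X)) ⊤ (1 : Γ(X, ⊤))) i _ _ = _
    rw [tev_mulSec]
    change _ * rO _ 1 = _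
    rw [map_one, mul_one])

/-- sections of products of twists commute past morphisms into twists -/
theorem mulSec_central {g h k : Coc U} (e : h * g = k) (e' : g * h = k)
    (σ : Γ((tw g).obj (OO X), (⊤ : X.Opens))) {M N : X.Modules} (f : M ⟶ (tw h).obj N) :
    f ≫ (tw h).map (mulSec σ N) ≫ mulHom e N =
      mulSec σ M ≫ (tw g).map f ≫ mulHom e' N :=
  hom_text (fun V s i _ hi => by
    simp only [ap_comp, tev_mulHom, tev_map, tev_mulSec, ap_smul, tev_smul, rs_self, rO_self])

theorem sv_secOf_comp {g h k : Coc U} (e : g * h = k) (f : OO X ⟶ (tw g).obj (OO X))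
    (f' : OO X ⟶ (tw h).obj (OO X)) (i : ι) {W : X.Opens} (hi : W ≤ U i) :
    sv (secOf (f ≫ (tw g).map f' ≫ mulHom e (OO X))) i le_top hi =
      sv (secOf f) i le_top hi * sv (secOf f') i le_top hi := by
  change tev (ap (f ≫ (tw g).map f' ≫ mulHom e (OO X)) ⊤ (1 : Γ(X, ⊤))) i le_top hi = _
  rw [ap_comp, ap_comp, tev_mulHom, tev_map, ap_OO f', tev_smul, rO_self, tev_rs]
  rfl

theorem secOf_comp {g h k : Coc U} (e : g * h = k) (f : OO X ⟶ (tw g).obj (OO X))
    (f' : OO X ⟶ (tw h).obj (OO X)) (M : X.Modules) :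
    mulSec (secOf (f ≫ (tw g).map f' ≫ mulHom e (OO X))) M =
      mulSec (secOf f) M ≫ (tw g).map (mulSec (secOf f') M) ≫ mulHom e M :=
  hom_text (fun V s i _ hi => by
    rw [tev_mulSec, sv_secOf_comp]
    simp only [ap_comp, tev_mulHom, tev_map, tev_mulSec, rs_self, ap_smul, tev_smul,
      rO_self]
    rw [mul_smul, smul_comm])

/-! ### sections of a cocycle -/

/-- a global section of the line bundle given by the cocycle `g` -/
structure Sec (g : Coc U) : Type u where
  /-- the local functions -/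
  s : ∀ i, Γ(X, U i)
  comp : ∀ i j, rO (inf_le_left : U i ⊓ U j ≤ U i) (s i) =
    g.v i j inf_le_left inf_le_right * rO (inf_le_right : U i ⊓ U j ≤ U j) (s j)

namespace Sec

variable {g h k : Coc U}

/-- the value of a section on a smaller open subset -/
noncomputable def v (σ : Sec g) (i : ι) {W : X.Opens} (hi : W ≤ U i) : Γ(X, W) := rO hi (σ.s i)

@[simp] theorem rO_v (σ : Sec g) (i : ι) {W W' : X.Opens} (hi : W ≤ U i) (h : W' ≤ W) :
    rO h (σ.v i hi) = σ.v i (h.trans hi) := by
  simp [v]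

theorem v_eq (σ : Sec g) (i j : ι) {W : X.Opens} (hi : W ≤ U i) (hj : W ≤ U j) :
    σ.v i hi = g.v i j hi hj * σ.v j hj := by
  have h := congrArg (fun x => rO (le_inf hi hj) x) (σ.comp i j)
  simp only [map_mul, rO_rO, Coc.rO_v] at h
  exact h

@[ext] theorem ext {σ τ : Sec g} (h : ∀ i, σ.s i = τ.s i) : σ = τ := by
  cases σ
  cases τ
  congr
  funext i
  exact h i

/-- the corresponding section of the twist of the structure sheaf -/
noncomputable def toSec (σ : Sec g) : Γ((tw g).obj (OO X), (⊤ : X.Opens)) :=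
  tmk (g := g) (M := OO X) (fun i => (σ.v i inf_le_right : Γ(X, ⊤ ⊓ U i))) (fun i j W hV hi hj => by
    change rO _ (σ.v i _) = g.v i j hi hj * rO _ (σ.v j _)
    rw [rO_v, rO_v]
    exact σ.v_eq i j hi hj)

@[simp] theorem sv_toSec (σ : Sec g) (i : ι) {W : X.Opens} (hi : W ≤ U i) :
    sv σ.toSec i le_top hi = σ.v i hi := by
  change rO _ (σ.v i _) = _
  rw [rO_v]

/-- the section of the cocycle defined by a section of the twist of the structure sheaf -/
noncomputable def ofSec (σ : Γ((tw g).obj (OO X), (⊤ : X.Opens))) : Sec g where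
  s i := sv σ i le_top le_rfl
  comp i j := by
    rw [rO_sv, rO_sv]
    exact sv_eq σ i j _ _ _

@[simp] theorem v_ofSec (σ : Γ((tw g).obj (OO X), (⊤ : X.Opens))) (i : ι) {W : X.Opens}
    (hi : W ≤ U i) : (ofSec σ).v i hi = sv σ i le_top hi :=
  rO_sv σ i le_top le_rfl hi

theorem toSec_ofSec (σ : Γ((tw g).obj (OO X), (⊤ : X.Opens))) : (ofSec σ).toSec = σ :=
  sv_ext (fun i => by rw [sv_toSec, v_ofSec])

theorem ofSec_toSec (σ : Sec g) : ofSec σ.toSec = σ := by
  ext i
  change sv σ.toSec i le_top le_rfl = σ.s i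
  rw [sv_toSec, v, rO_self]

/-- a section of a line bundle as a natural transformation `M → M ⊗ L` -/
noncomputable def act (σ : Sec g) : 𝟭 X.Modules ⟶ tw g where
  app M := mulSec σ.toSec M
  naturality _ _ φ := mulSec_naturality σ.toSec φ

theorem act_app (σ : Sec g) (M : X.Modules) : σ.act.app M = mulSec σ.toSec M := rfl

@[simp] theorem tev_act (σ : Sec g) (M : X.Modules) {V : X.Opens} (m : Γ(M, V)) (i : ι)
    {W : X.Opens} (hV : W ≤ V) (hi : W ≤ U i) :
    tev (ap (σ.act.app M) V m) i hV hi = σ.v i hi • rs M hV m := by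
  rw [act_app, tev_mulSec, sv_toSec]

/-- the section defined by a morphism `O → L` -/
noncomputable def ofHom (f : OO X ⟶ (tw g).obj (OO X)) : Sec g := ofSec (secOf f)

theorem act_ofHom (f : OO X ⟶ (tw g).obj (OO X)) : (ofHom f).act.app (OO X) = f := by
  rw [act_app, ofHom, toSec_ofSec, mulSec_secOf]

theorem ofHom_act (σ : Sec g) : ofHom (σ.act.app (OO X)) = σ := by
  rw [act_app, ofHom, secOf_mulSec, ofSec_toSec]

/-- the unit section -/
noncomputable def one (e : g = 1) : Sec g where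
  s _ := 1
  comp i j := by
    subst e
    simp

/-- the product of sections -/
noncomputable def mul (e : g * h = k) (σ : Sec g) (τ : Sec h) : Sec k where
  s i := σ.s i * τ.s i
  comp i j := by
    subst e
    rw [map_mul, map_mul, v_mul, σ.comp i j, τ.comp i j]
    ring

@[simp] theorem v_mul (e : g * h = k) (σ : Sec g) (τ : Sec h) (i : ι) {W : X.Opens}
    (hi : W ≤ U i) : (mul e σ τ).v i hi = σ.v i hi * τ.v i hi := by
  simp [v, mul]

theorem mulSec_mul (e : g * h = k) (σ : Sec g) (τ : Sec h) (M : X.Modules) :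
    mulSec (mul e σ τ).toSec M =
      mulSec σ.toSec M ≫ (tw g).map (mulSec τ.toSec M) ≫ mulHom e M :=
  hom_text (fun V s i _ hi => by
    simp only [ap_comp, tev_mulHom, tev_map, tev_mulSec, rs_self, ap_smul, tev_smul,
      rO_self, sv_toSec, v_mul]
    rw [mul_smul, smul_comm])

theorem act_mul (e : g * h = k) (σ : Sec g) (τ : Sec h) (M : X.Modules) :
    (mul e σ τ).act.app M = σ.act.app M ≫ (tw g).map (τ.act.app M) ≫ mulHom e M :=
  mulSec_mul e σ τ M

theorem act_central (e : h * g = k) (e' : g * h = k) (σ : Sec g) {M N : X.Modules}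
    (f : M ⟶ (tw h).obj N) :
    f ≫ (tw h).map (σ.act.app N) ≫ mulHom e N =
      σ.act.app M ≫ (tw g).map f ≫ mulHom e' N :=
  mulSec_central e e' σ.toSec f

end Sec

end Coc

end Fdim
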