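import Mathlib

/-!
# Sections of sheaves of modules on a scheme: elementary API

Restriction maps as additive maps, gluing, and a constructor of sheaves of modules and of their
morphisms from explicit data.
-/

open CategoryTheory Limits TopologicalSpace AlgebraicGeometry Opposite

universe u

namespace Fdim

variable {X : Scheme.{u}}

/-- restriction of functions -/
noncomputable def rO {U V : X.Opens} (h : V ≤ U) : Γ(X, U) →+* Γ(X, V) :=
  (X.presheaf.map (homOfLE h).op).hom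

/-- restriction of sections of a sheaf of modules -/
noncomputable def rs (M : X.Modules) {U V : X.Opens} (h : V ≤ U) : Γ(M, U) →+ Γ(M, V) :=
  (M.presheaf.map (homOfLE h).op).hom

@[simp] theorem rO_self {U : X.Opens} (h : U ≤ U) (s : Γ(X, U)) : rO h s = s := by
  simp [rO]

@[simp] theorem rO_rO {U V W : X.Opens} (h : V ≤ U) (h' : W ≤ V) (s : Γ(X, U)) :
    rO h' (rO h s) = rO (h'.trans h) s := by
  simp only [rO]
  rw [← CommRingCat.comp_apply, ← Functor.map_comp]
  rfl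

@[simp] theorem rs_self (M : X.Modules) {U : X.Opens} (h : U ≤ U) (s : Γ(M, U)) :
    rs M h s = s := by
  simp [rs]

@[simp] theorem rs_rs (M : X.Modules) {U V W : X.Opens} (h : V ≤ U) (h' : W ≤ V) (s : Γ(M, U)) :
    rs M h' (rs M h s) = rs M (h'.trans h) s := by
  simp only [rs]
  rw [← AddCommGrpCat.comp_apply, ← Functor.map_comp]
  rfl

@[simp] theorem rs_smul (M : X.Modules) {U V : X.Opens} (h : V ≤ U) (r : Γ(X, U)) (s : Γ(M, U)) :
    rs M h (r • s) = rO h r • rs M h s :=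
  Scheme.Modules.map_smul M (homOfLE h) r s

/-- the map on sections of a morphism, as an additive map -/
noncomputable def ap {M N : X.Modules} (φ : M ⟶ N) (U : X.Opens) : Γ(M, U) →+ Γ(N, U) :=
  (φ.app U).hom

@[simp] theorem ap_smul {M N : X.Modules} (φ : M ⟶ N) (U : X.Opens) (r : Γ(X, U))
    (s : Γ(M, U)) : ap φ U (r • s) = r • ap φ U s :=
  Scheme.Modules.Hom.app_smul φ r s

theorem ap_rs {M N : X.Modules} (φ : M ⟶ N) {U V : X.Opens} (h : V ≤ U) (s : Γ(M, U)) :
    ap φ V (rs M h s) = rs N h (ap φ U s) := by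
  simp only [ap, rs]
  rw [← AddCommGrpCat.comp_apply, ← AddCommGrpCat.comp_apply]
  have := φ.mapPresheaf.naturality (homOfLE h).op
  exact congr($this s)

@[simp] theorem ap_id (M : X.Modules) (U : X.Opens) (s : Γ(M, U)) : ap (𝟙 M) U s = s := rfl

@[simp] theorem ap_comp {M N K : X.Modules} (φ : M ⟶ N) (ψ : N ⟶ K) (U : X.Opens)
    (s : Γ(M, U)) : ap (φ ≫ ψ) U s = ap ψ U (ap φ U s) := rfl

@[simp] theorem ap_add {M N : X.Modules} (φ ψ : M ⟶ N) (U : X.Opens) (s : Γ(M, U)) :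
    ap (φ + ψ) U s = ap φ U s + ap ψ U s := rfl

@[simp] theorem ap_zero {M N : X.Modules} (U : X.Opens) (s : Γ(M, U)) :
    ap (0 : M ⟶ N) U s = 0 := rfl

theorem hom_ext' {M N : X.Modules} {φ ψ : M ⟶ N} (h : ∀ U (s : Γ(M, U)), ap φ U s = ap ψ U s) :
    φ = ψ := by
  apply Scheme.Modules.hom_ext
  intro U
  ext s
  exact h U s

/-! ## The sheaf property -/

theorem sec_ext (M : X.Modules) {ι : Type*} {V : X.Opens} {U : ι → X.Opens}
    (hU : ∀ i, U i ≤ V) (hV : V ≤ ⨆ i, U i) {s t : Γ(M, V)}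
    (h : ∀ i, rs M (hU i) s = rs M (hU i) t) : s = t :=
  TopCat.Sheaf.eq_of_locally_eq' ⟨M.presheaf, M.isSheaf⟩ U V (fun i => homOfLE (hU i)) hV s t h

theorem exists_glue (M : X.Modules) {ι : Type*} {V : X.Opens} {U : ι → X.Opens}
    (hU : ∀ i, U i ≤ V) (hV : V ≤ ⨆ i, U i) (s : ∀ i, Γ(M, U i))
    (h : ∀ i j, rs M inf_le_left (s i) = rs M (inf_le_right : U i ⊓ U j ≤ U j) (s j)) :
    ∃ t : Γ(M, V), ∀ i, rs M (hU i) t = s i :=
  (TopCat.Sheaf.existsUnique_gluing' ⟨M.presheaf, M.isSheaf⟩ U V (fun i => homOfLE (hU i)) hV s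
    h).exists

end Fdim
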