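import Pool.Agent.Work.MP_f714fc_ag.Tw.TwFun
import Pool.Agent.Work.MP_f714fc_ag.Coh.Qc

/-!
# Extension of sections of quasi-coherent sheaves from the locus of a section of a line bundle

The line bundle is given by a cocycle `g : Coc U`, a section of it by a family `σ i ∈ Γ(X, U i)`
with `σ i = g i j * σ j`, the twist of `M` by its powers is `(tw (g ^ N)).obj M`.
-/

open CategoryTheory Limits TopologicalSpace AlgebraicGeometry Opposite

attribute [-instance] CategoryTheory.catToReflQuiver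

universe u

namespace Fdim

variable {X : Scheme.{u}}

theorem basicOpen_rO {U V : X.Opens} (h : V ≤ U) (f : Γ(X, U)) :
    X.basicOpen (rO h f) = V ⊓ X.basicOpen f :=
  X.basicOpen_res f (homOfLE h).op

/-! ### finite affine covers -/

/-- a compact open subset covered by a family has a finite affine cover subordinate to the
family -/
theorem exists_affine_cover {ι : Type*} (U : ι → X.Opens) {W : X.Opens}
    (hW : IsCompact (W : Set X)) (hU : W ≤ ⨆ i, U i) :
    ∃ (κ : Type u) (_ : Finite κ) (V : κ → X.Opens) (idx : κ → ι),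
      (∀ a, IsAffineOpen (V a)) ∧ (∀ a, V a ≤ U (idx a)) ∧ (∀ a, V a ≤ W) ∧ W ≤ ⨆ a, V a := by
  have h1 : ∀ x : W, ∃ (V : X.Opens) (i : ι), IsAffineOpen V ∧ V ≤ U i ∧ V ≤ W ∧ (x : X) ∈ V := by
    intro x
    have hx : (x : X) ∈ ⨆ i, U i := hU x.2
    rw [Opens.mem_iSup] at hx
    obtain ⟨i, hi⟩ := hx
    obtain ⟨V, hV, hxV, hVU⟩ := exists_isAffineOpen_mem_and_subset (x := (x : X))
      (U := W ⊓ U i) ⟨x.2, hi⟩
    exact ⟨V, i, hV, fun y hy => (hVU hy).2, fun y hy => (hVU hy).1, hxV⟩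
  choose V i hV hVU hVW hxV using h1
  obtain ⟨t, ht⟩ := hW.elim_finite_subcover (fun x : W => (V x : Set X)) (fun x => (V x).2)
    (fun x hx => Set.mem_iUnion.2 ⟨⟨x, hx⟩, hxV ⟨x, hx⟩⟩)
  refine ⟨{x : W // x ∈ t}, inferInstance, fun a => V a.1, fun a => i a.1, fun a => hV _,
    fun a => hVU _, fun a => hVW _, ?_⟩
  intro x hx
  have h2 := ht hx
  simp only [Set.mem_iUnion] at h2
  obtain ⟨y, hy, hxy⟩ := h2
  exact Opens.mem_iSup.2 ⟨⟨y, hy⟩, hxy⟩

/-- a uniform bound -/
theorem exists_bound {κ : Type*} [Finite κ] (n : κ → ℕ) : ∃ N, ∀ a, n a ≤ N := by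
  obtain ⟨N, hN⟩ := (Set.finite_range n).bddAbove
  exact ⟨N, fun a => hN ⟨a, rfl⟩⟩

/-! ### sections over a compact open subset -/

/-- a section over a compact open set which vanishes where `f` does not is killed by a power of
`f` -/
theorem qc_unique' (M : X.Modules) [M.IsQuasicoherent] {W : X.Opens}
    (hW : IsCompact (W : Set X)) (f : Γ(X, W)) (t : Γ(M, W))
    (h : rs M (X.basicOpen_le f) t = 0) : ∃ n : ℕ, f ^ n • t = 0 := by
  obtain ⟨κ, _, V, -, hV, -, hVW, hcov⟩ := exists_affine_cover (fun _ : Unit => W) hW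
    (le_iSup (fun _ : Unit => W) ())
  have h1 : ∀ a, ∃ n : ℕ, rO (hVW a) f ^ n • rs M (hVW a) t = 0 := by
    intro a
    apply Coh.qc_unique (hV a) M (rO (hVW a) f) (rs M (hVW a) t)
    have h2 : X.basicOpen (rO (hVW a) f) ≤ X.basicOpen f := by
      rw [basicOpen_rO]
      exact inf_le_right
    change rs M (X.basicOpen_le _) (rs M (hVW a) t) = 0
    rw [rs_rs, ← rs_rs M (X.basicOpen_le f) h2, h, map_zero]
  choose n hn using h1
  obtain ⟨N, hN⟩ := exists_bound n
  refine ⟨N, ?_⟩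
  apply sec_ext M hVW hcov
  intro a
  rw [rs_smul, map_pow, map_zero, ← Nat.sub_add_cancel (hN a), pow_add, mul_smul, hn, smul_zero]

namespace Coc

variable {ι : Type u} {U : ι → X.Opens}

@[simp] theorem v_pow (g : Coc U) (n : ℕ) (i j : ι) {W : X.Opens} (hi : W ≤ U i) (hj : W ≤ U j) :
    (g ^ n).v i j hi hj = g.v i j hi hj ^ n := by
  induction n with
  | zero => simp
  | succ n ih => rw [pow_succ, v_mul, ih, pow_succ]

theorem isUnit_v (g : Coc U) (i j : ι) {W : X.Opens} (hi : W ≤ U i) (hj : W ≤ U j) :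
    IsUnit (g.v i j hi hj) :=
  IsUnit.of_mul_eq_one _ (g.v_swap i j hi hj)

/-- a section of the line bundle given by a cocycle -/
structure Sct (g : Coc U) where
  /-- the components -/
  c : ∀ i, Γ(X, U i)
  comp : ∀ (i j : ι) (W : X.Opens) (hi : W ≤ U i) (hj : W ≤ U j),
    rO hi (c i) = g.v i j hi hj * rO hj (c j)

namespace Sct

variable {g : Coc U} (σ : Sct g)

/-- the value of a section with index `i` on a smaller open subset -/
noncomputable def v (i : ι) {W : X.Opens} (hi : W ≤ U i) : Γ(X, W) := rO hi (σ.c i)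

@[simp] theorem rO_v (i : ι) {W W' : X.Opens} (hi : W ≤ U i) (h : W' ≤ W) :
    rO h (σ.v i hi) = σ.v i (h.trans hi) := by
  simp [v]

theorem v_eq (i j : ι) {W : X.Opens} (hi : W ≤ U i) (hj : W ≤ U j) :
    σ.v i hi = g.v i j hi hj * σ.v j hj := σ.comp i j W hi hj

/-- the open subset where a section does not vanish -/
def locus : X.Opens := ⨆ i, X.basicOpen (σ.c i)

theorem basicOpen_v (i : ι) {W : X.Opens} (hi : W ≤ U i) :
    X.basicOpen (σ.v i hi) = W ⊓ X.basicOpen (σ.c i) := basicOpen_rO _ _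

theorem locus_inf (i : ι) {W : X.Opens} (hi : W ≤ U i) :
    σ.locus ⊓ W = X.basicOpen (σ.v i hi) := by
  apply le_antisymm
  · rw [locus, iSup_inf_eq]
    apply iSup_le
    intro j
    have hj : X.basicOpen (σ.c j) ⊓ W ≤ U j := inf_le_left.trans (X.basicOpen_le _)
    have h1 : X.basicOpen (σ.v i (inf_le_right.trans hi : X.basicOpen (σ.c j) ⊓ W ≤ U i)) =
        X.basicOpen (σ.v j hj) := by
      rw [σ.v_eq i j _ hj, X.basicOpen_mul,
        X.basicOpen_of_isUnit (g.isUnit_v i j _ _)]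
      exact inf_eq_right.2 (X.basicOpen_le _)
    have h2 : X.basicOpen (σ.c j) ⊓ W ≤ X.basicOpen (σ.v j hj) := by
      rw [basicOpen_v]
      exact le_inf le_rfl inf_le_left
    rw [← h1, basicOpen_v] at h2
    rw [basicOpen_v]
    exact le_inf inf_le_right (h2.trans inf_le_right)
  · rw [basicOpen_v]
    exact le_inf (inf_le_right.trans (le_iSup (fun i => X.basicOpen (σ.c i)) i)) inf_le_left

theorem le_basicOpen (i : ι) {W W' : X.Opens} (hi : W ≤ U i) (h : W' ≤ W) (h' : W' ≤ σ.locus) :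
    W' ≤ X.basicOpen (σ.v i hi) := by
  rw [← locus_inf]
  exact le_inf h' h

theorem isUnit_v (i : ι) {W : X.Opens} (hi : W ≤ U i) (h : W ≤ σ.locus) :
    IsUnit (σ.v i hi) := by
  have h1 : X.basicOpen (σ.v i hi) = W :=
    le_antisymm (X.basicOpen_le _) (σ.le_basicOpen i hi le_rfl h)
  have h2 : IsUnit (rO (X.basicOpen_le (σ.v i hi)) (σ.v i hi)) :=
    RingedSpace.isUnit_res_basicOpen X.toRingedSpace (σ.v i hi)
  have h3 := h2.map (rO h1.ge)
  rwa [rO_rO, rO_self] at h3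

/-- powers of a section -/
noncomputable def pow (n : ℕ) : Sct (g ^ n) where
  c i := σ.c i ^ n
  comp i j W hi hj := by
    rw [map_pow, map_pow, v_pow, σ.comp i j W hi hj, mul_pow]

@[simp] theorem v_pow' (n : ℕ) (i : ι) {W : X.Opens} (hi : W ≤ U i) :
    (σ.pow n).v i hi = σ.v i hi ^ n := map_pow _ _ _

end Sct

/-- **Extension lemma**: a section of a quasi-coherent sheaf over the locus of `σ` extends to a
global section of a twist after multiplication with a large power of `σ`. -/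
theorem exists_ext [CompactSpace X] [QuasiSeparatedSpace X] (hcov : (⊤ : X.Opens) ≤ ⨆ i, U i)
    {g : Coc U} (σ : Sct g) (M : X.Modules) [M.IsQuasicoherent] (m : Γ(M, σ.locus)) :
    ∃ N₀ : ℕ, ∀ N ≥ N₀, ∃ t : Γ((tw (g ^ N)).obj M, ⊤), ∀ (i : ι) (W : X.Opens) (hi : W ≤ U i)
      (hW : W ≤ σ.locus), tev t i le_top hi = σ.v i hi ^ N • rs M hW m := by
  obtain ⟨κ, _, V, idx, hV, hVU, -, hVc⟩ := exists_affine_cover U (W := (⊤ : X.Opens))
    isCompact_univ hcov
  -- extensions on the affine pieces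
  have h1 : ∀ a, ∃ (n : ℕ) (t : Γ(M, V a)), ∀ (W : X.Opens) (h : W ≤ V a) (hW : W ≤ σ.locus),
      rs M h t = σ.v (idx a) (h.trans (hVU a)) ^ n • rs M hW m := by
    intro a
    have hle : X.basicOpen (σ.v (idx a) (hVU a)) ≤ σ.locus := by
      rw [← σ.locus_inf]
      exact inf_le_left
    obtain ⟨n, t, ht⟩ := Coh.qc_exists (hV a) M (σ.v (idx a) (hVU a)) (rs M hle m)
    refine ⟨n, t, fun W h hW => ?_⟩
    have hWb := σ.le_basicOpen (idx a) (hVU a) h hW
    have ht' : rs M (X.basicOpen_le (σ.v (idx a) (hVU a))) t =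
      rO (X.basicOpen_le (σ.v (idx a) (hVU a))) (σ.v (idx a) (hVU a)) ^ n • rs M hle m := ht
    have h2 := congrArg (rs M hWb) ht'
    rw [rs_rs, rs_smul, rs_rs, map_pow, rO_rO, Sct.rO_v] at h2
    exact h2
  choose n t ht using h1
  obtain ⟨n₁, hn₁⟩ := exists_bound n
  -- a common exponent
  have h2 : ∀ a, ∃ (t' : Γ(M, V a)), ∀ (W : X.Opens) (h : W ≤ V a) (hW : W ≤ σ.locus),
      rs M h t' = σ.v (idx a) (h.trans (hVU a)) ^ n₁ • rs M hW m := by
    intro a
    refine ⟨σ.v (idx a) (hVU a) ^ (n₁ - n a) • t a, fun W h hW => ?_⟩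
    rw [rs_smul, map_pow, Sct.rO_v, ht a W h hW, smul_smul, ← pow_add, Nat.sub_add_cancel (hn₁ a)]
  choose t' ht' using h2
  -- the differences on the overlaps are killed by a power
  have h3 : ∀ ab : κ × κ, ∃ p : ℕ,
      σ.v (idx ab.1) (inf_le_left.trans (hVU ab.1) : V ab.1 ⊓ V ab.2 ≤ U (idx ab.1)) ^ p •
        (rs M inf_le_left (t' ab.1) - g.v (idx ab.1) (idx ab.2)
          (inf_le_left.trans (hVU ab.1) : V ab.1 ⊓ V ab.2 ≤ U (idx ab.1))
          (inf_le_right.trans (hVU ab.2)) ^ n₁ • rs M inf_le_right (t' ab.2)) = 0 := by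
    rintro ⟨a, b⟩
    dsimp only
    apply qc_unique' M ((hV a).isCompact.inter_of_isOpen (hV b).isCompact (V a).2 (V b).2)
    have hle : X.basicOpen (σ.v (idx a) (inf_le_left.trans (hVU a) : V a ⊓ V b ≤ U (idx a))) ≤
        σ.locus := by
      rw [← σ.locus_inf]
      exact inf_le_left
    rw [map_sub, rs_rs, rs_smul, rs_rs, ht' a _ _ hle, ht' b _ _ hle, map_pow, rO_v, smul_smul,
      ← mul_pow, ← σ.v_eq, sub_self]
  choose p hp using h3
  obtain ⟨p₁, hp₁⟩ := exists_bound p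
  refine ⟨n₁ + p₁, fun N hN => ?_⟩
  -- compatible families
  have h4 : ∀ (a b : κ) (W : X.Opens) (ha : W ≤ V a) (hb : W ≤ V b),
      σ.v (idx a) (ha.trans (hVU a)) ^ (N - n₁) • rs M ha (t' a) =
        g.v (idx a) (idx b) (ha.trans (hVU a)) (hb.trans (hVU b)) ^ N •
          σ.v (idx b) (hb.trans (hVU b)) ^ (N - n₁) • rs M hb (t' b) := by
    intro a b W ha hb
    have h5 := congrArg (rs M (le_inf ha hb)) (hp (a, b))
    rw [rs_smul, map_sub, rs_rs, rs_smul, rs_rs, map_pow, map_pow, rO_v, Sct.rO_v, map_zero,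
      smul_sub, sub_eq_zero] at h5
    dsimp only at h5
    have e1 : N - n₁ = (N - n₁ - p (a, b)) + p (a, b) := by
      have := hp₁ (a, b)
      omega
    have e2 : g.v (idx a) (idx b) (ha.trans (hVU a)) (hb.trans (hVU b)) ^ N =
        g.v (idx a) (idx b) (ha.trans (hVU a)) (hb.trans (hVU b)) ^ (N - n₁) *
          g.v (idx a) (idx b) (ha.trans (hVU a)) (hb.trans (hVU b)) ^ n₁ := by
      rw [← pow_add]
      congr 1
      omega
    rw [smul_smul, e2, mul_right_comm, ← mul_pow, ← σ.v_eq]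
    conv_lhs => rw [e1, pow_add, mul_smul, h5]
    conv_rhs => rw [mul_smul, e1, pow_add, mul_smul]
  -- local sections of the twist
  have h5 : ∀ a, ∃ τ : Γ((tw (g ^ N)).obj M, V a), ∀ (i : ι) (W : X.Opens) (ha : W ≤ V a)
      (hi : W ≤ U i), tev τ i ha hi = g.v i (idx a) hi (ha.trans (hVU a)) ^ N •
        σ.v (idx a) (ha.trans (hVU a)) ^ (N - n₁) • rs M ha (t' a) := by
    intro a
    refine ⟨tmk (fun j => g.v j (idx a) (inf_le_right : V a ⊓ U j ≤ U j)
          ((inf_le_left : V a ⊓ U j ≤ V a).trans (hVU a)) ^ N •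
        σ.v (idx a) ((inf_le_left : V a ⊓ U j ≤ V a).trans (hVU a)) ^ (N - n₁) •
          rs M (inf_le_left : V a ⊓ U j ≤ V a) (t' a)) ?_, ?_⟩
    · intro i j W hW hi hj
      simp only [rs_smul, map_pow, rO_v, Sct.rO_v, rs_rs, v_pow]
      rw [← mul_smul (g.v i j hi hj ^ N), ← mul_pow, g.v_v]
    · intro i W ha hi
      simp only [tev_tmk, rs_smul, map_pow, rO_v, Sct.rO_v, rs_rs]
  choose τ hτ using h5
  obtain ⟨T, hT⟩ := exists_glue ((tw (g ^ N)).obj M) (U := V) (V := ⊤) (fun a => le_top) hVc τ (by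
    intro a b
    apply text
    intro i
    rw [tev_rs, tev_rs, hτ, hτ, h4 a b _ (inf_le_left.trans inf_le_left)
      (inf_le_left.trans inf_le_right), smul_smul, ← mul_pow, g.v_v])
  refine ⟨T, fun i W hi hW => ?_⟩
  apply sec_ext M (U := fun a => W ⊓ V a) (V := W) (fun a => inf_le_left) (by
    rw [← inf_iSup_eq]
    exact le_inf le_rfl (le_top.trans hVc))
  intro a
  rw [rs_tev, rs_smul, rs_rs, map_pow, Sct.rO_v]
  have h6 : tev T i (inf_le_left.trans le_top : W ⊓ V a ≤ ⊤) (inf_le_left.trans hi) =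
      tev (rs _ le_top T) i (inf_le_right : W ⊓ V a ≤ V a) (inf_le_left.trans hi) := by
    rw [tev_rs]
  rw [h6, hT a, hτ, ht' a _ _ (inf_le_left.trans hW), smul_smul, smul_smul, mul_assoc, ← pow_add,
    Nat.sub_add_cancel (by omega), ← mul_pow, ← σ.v_eq]

/-- a global section which vanishes on the locus of `σ` is killed by large powers of `σ` -/
theorem ext_zero [CompactSpace X] (hcov : (⊤ : X.Opens) ≤ ⨆ i, U i)
    {g : Coc U} (σ : Sct g) (M : X.Modules) [M.IsQuasicoherent] {Y : X.Opens}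
    (hY : IsCompact (Y : Set X)) (m : Γ(M, Y))
    (hm : rs M (inf_le_left : Y ⊓ σ.locus ≤ Y) m = 0) :
    ∃ N₀ : ℕ, ∀ N ≥ N₀, ∀ (i : ι) (W : X.Opens) (hi : W ≤ U i) (hW : W ≤ Y),
      σ.v i hi ^ N • rs M hW m = 0 := by
  obtain ⟨κ, _, V, idx, hV, hVU, hVY, hVc⟩ := exists_affine_cover U hY (le_top.trans hcov)
  have h1 : ∀ a, ∃ n : ℕ, σ.v (idx a) (hVU a) ^ n • rs M (hVY a) m = 0 := by
    intro a
    apply Coh.qc_unique (hV a) M
    change rs M (X.basicOpen_le _) (rs M (hVY a) m) = 0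
    have h2 : X.basicOpen (σ.v (idx a) (hVU a)) ≤ Y ⊓ σ.locus := by
      rw [← σ.locus_inf]
      exact le_inf (inf_le_right.trans (hVY a)) inf_le_left
    rw [rs_rs, ← rs_rs M inf_le_left h2, hm, map_zero]
  choose n hn using h1
  obtain ⟨n₁, hn₁⟩ := exists_bound n
  refine ⟨n₁, fun N hN i W hi hW => ?_⟩
  apply sec_ext M (U := fun a => W ⊓ V a) (V := W) (fun a => inf_le_left) (by
    rw [← inf_iSup_eq]
    exact le_inf le_rfl (hW.trans hVc))
  intro a
  have h3 := congrArg (rs M (inf_le_right : W ⊓ V a ≤ V a)) (hn a)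
  rw [rs_smul, rs_rs, map_pow, Sct.rO_v, map_zero] at h3
  rw [rs_smul, rs_rs, map_pow, Sct.rO_v, map_zero,
    σ.v_eq i (idx a) (inf_le_left.trans hi) (inf_le_right.trans (hVU a)), mul_pow]
  have e1 : N = (N - n a) + n a := by
    have := hn₁ a
    omega
  conv_lhs => rw [mul_smul, e1, pow_add (σ.v _ _), mul_smul, h3, smul_zero, smul_zero]

end Coc

end Fdim
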