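import Pool.Agent.Work.MP_f714fc_ag.Tw.Twist

/-!
# The twist functor, products of twists, sections acting as natural transformations
-/

open CategoryTheory Limits TopologicalSpace AlgebraicGeometry Opposite

attribute [-instance] CategoryTheory.catToReflQuiver

universe u

namespace Fdim

variable {X : Scheme.{u}} {ι : Type u} {U : ι → X.Opens}

namespace Coc

/-- the twist of a sheaf of modules -/
noncomputable def twO (g : Coc U) (M : X.Modules) : X.Modules := (twData g M).md

variable {g h : Coc U} {M N : X.Modules}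

/-- auxiliary: the value of a section of the twist -/
noncomputable def oev {V : X.Opens} (s : Γ(twO g M, V)) (i : ι) {W : X.Opens} (hV : W ≤ V)
    (hi : W ≤ U i) : Γ(M, W) :=
  S.ev (g := g) (M := M) (V := V) s i hV hi

/-- auxiliary: constructor of sections of the twist -/
noncomputable def omk {V : X.Opens} (m : ∀ i, Γ(M, V ⊓ U i))
    (h : ∀ i j, ∀ W : X.Opens, ∀ (hV : W ≤ V) (hi : W ≤ U i) (hj : W ≤ U j),
      rs M (le_inf hV hi) (m i) = g.v i j hi hj • rs M (le_inf hV hj) (m j)) :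
    Γ(twO g M, V) :=
  (S.mk' m h : S g M V)

theorem oev_omk {V : X.Opens} (m : ∀ i, Γ(M, V ⊓ U i))
    (h : ∀ i j, ∀ W : X.Opens, ∀ (hV : W ≤ V) (hi : W ≤ U i) (hj : W ≤ U j),
      rs M (le_inf hV hi) (m i) = g.v i j hi hj • rs M (le_inf hV hj) (m j)) (i : ι)
    {W : X.Opens} (hV : W ≤ V) (hi : W ≤ U i) :
    oev (omk (g := g) m h) i hV hi = rs M (le_inf hV hi) (m i) := rfl

theorem rs_oev {V : X.Opens} (s : Γ(twO g M, V)) (i : ι) {W W' : X.Opens}
    (hV : W ≤ V) (hi : W ≤ U i) (h : W' ≤ W) :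
    rs M h (oev s i hV hi) = oev s i (h.trans hV) (h.trans hi) :=
  S.rs_ev _ _ _ _ _

theorem oev_eq {V : X.Opens} (s : Γ(twO g M, V)) (i j : ι) {W : X.Opens} (hV : W ≤ V)
    (hi : W ≤ U i) (hj : W ≤ U j) : oev s i hV hi = g.v i j hi hj • oev s j hV hj :=
  S.ev_eq _ _ _ _ _ _

theorem oev_rs {V V' : X.Opens} (h : V' ≤ V) (s : Γ(twO g M, V)) (i : ι)
    {W : X.Opens} (hV : W ≤ V') (hi : W ≤ U i) :
    oev (rs (twO g M) h s) i hV hi = oev s i (hV.trans h) hi :=
  ev_resS h _ i hV hi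

theorem oev_add {V : X.Opens} (s t : Γ(twO g M, V)) (i : ι) {W : X.Opens}
    (hV : W ≤ V) (hi : W ≤ U i) : oev (s + t) i hV hi = oev s i hV hi + oev t i hV hi :=
  S.ev_add (g := g) (M := M) (V := V) s t i hV hi

theorem oev_zero {V : X.Opens} (i : ι) {W : X.Opens}
    (hV : W ≤ V) (hi : W ≤ U i) : oev (0 : Γ(twO g M, V)) i hV hi = 0 :=
  S.ev_zero (g := g) (M := M) (V := V) i hV hi

theorem oev_neg {V : X.Opens} (s : Γ(twO g M, V)) (i : ι) {W : X.Opens}
    (hV : W ≤ V) (hi : W ≤ U i) : oev (-s) i hV hi = - oev s i hV hi :=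
  S.ev_neg (g := g) (M := M) (V := V) s i hV hi

theorem oev_smul {V : X.Opens} (r : Γ(X, V)) (s : Γ(twO g M, V)) (i : ι)
    {W : X.Opens} (hV : W ≤ V) (hi : W ≤ U i) :
    oev (r • s) i hV hi = rO hV r • oev s i hV hi :=
  S.ev_smul (g := g) (M := M) (V := V) r s i hV hi

theorem oext {V : X.Opens} {s t : Γ(twO g M, V)}
    (h : ∀ i, oev s i (inf_le_left : V ⊓ U i ≤ V) inf_le_right =
      oev t i (inf_le_left : V ⊓ U i ≤ V) inf_le_right) : s = t :=
  S.ext' (g := g) (M := M) (V := V) h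

/-- auxiliary: sections of a lift -/
noncomputable def oliftS (g : Coc U) (F : ∀ (i : ι) (W : X.Opens), W ≤ U i → (Γ(N, W) →+ Γ(M, W)))
    (hr : ∀ i W W' (hi : W ≤ U i) (h : W' ≤ W) s,
      rs M h (F i W hi s) = F i W' (h.trans hi) (rs N h s))
    (hc : ∀ i j W (hi : W ≤ U i) (hj : W ≤ U j) s, F i W hi s = g.v i j hi hj • F j W hj s)
    (V : X.Opens) : Γ(N, V) →+ Γ(twO g M, V) :=
  AddMonoidHom.mk' (fun s => omk (fun i => F i (V ⊓ U i) inf_le_right (rs N inf_le_left s)) (by
      intro i j W hV hi hj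
      rw [hr, hr, rs_rs, rs_rs]
      exact hc i j W hi hj _))
    (fun s t => oext (fun i => by
      rw [oev_omk, oev_add, oev_omk, oev_omk, map_add, map_add, map_add]))

theorem oev_oliftS (F : ∀ (i : ι) (W : X.Opens), W ≤ U i → (Γ(N, W) →+ Γ(M, W)))
    (hr : ∀ i W W' (hi : W ≤ U i) (h : W' ≤ W) s,
      rs M h (F i W hi s) = F i W' (h.trans hi) (rs N h s))
    (hc : ∀ i j W (hi : W ≤ U i) (hj : W ≤ U j) s, F i W hi s = g.v i j hi hj • F j W hj s)
    {V : X.Opens} (s : Γ(N, V)) (i : ι) {W : X.Opens} (hV : W ≤ V) (hi : W ≤ U i) :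
    oev (oliftS g F hr hc V s) i hV hi = F i W hi (rs N hV s) := by
  rw [oliftS, AddMonoidHom.mk'_apply, oev_omk, hr, rs_rs]

/-- a morphism into a twist from a compatible family of local morphisms -/
noncomputable def olift (g : Coc U) (F : ∀ (i : ι) (W : X.Opens), W ≤ U i → (Γ(N, W) →+ Γ(M, W)))
    (hl : ∀ i W (hi : W ≤ U i) (r : Γ(X, W)) s, F i W hi (r • s) = r • F i W hi s)
    (hr : ∀ i W W' (hi : W ≤ U i) (h : W' ≤ W) s,
      rs M h (F i W hi s) = F i W' (h.trans hi) (rs N h s))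
    (hc : ∀ i j W (hi : W ≤ U i) (hj : W ≤ U j) s, F i W hi s = g.v i j hi hj • F j W hj s) :
    N ⟶ twO g M :=
  homMk (fun V => oliftS g F hr hc V)
    (fun V r s => oext (fun i => by
      rw [oev_oliftS, oev_smul, oev_oliftS, rs_smul, hl]))
    (fun {V W} h s => oext (fun i => by
      rw [oev_oliftS, oev_rs, oev_oliftS, rs_rs]))

theorem oev_olift (F : ∀ (i : ι) (W : X.Opens), W ≤ U i → (Γ(N, W) →+ Γ(M, W)))
    (hl : ∀ i W (hi : W ≤ U i) (r : Γ(X, W)) s, F i W hi (r • s) = r • F i W hi s)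
    (hr : ∀ i W W' (hi : W ≤ U i) (h : W' ≤ W) s,
      rs M h (F i W hi s) = F i W' (h.trans hi) (rs N h s))
    (hc : ∀ i j W (hi : W ≤ U i) (hj : W ≤ U j) s, F i W hi s = g.v i j hi hj • F j W hj s)
    {V : X.Opens} (s : Γ(N, V)) (i : ι) {W : X.Opens} (hV : W ≤ V) (hi : W ≤ U i) :
    oev (ap (olift g F hl hr hc) V s) i hV hi = F i W hi (rs N hV s) :=
  oev_oliftS F hr hc s i hV hi

/-- auxiliary: the component with index `i` of a section of the twist, as an additive map -/
noncomputable def ocomp (g : Coc U) (M : X.Modules) (i : ι) (W : X.Opens) (hi : W ≤ U i) :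
    Γ(twO g M, W) →+ Γ(M, W) where
  toFun s := oev s i le_rfl hi
  map_zero' := oev_zero i le_rfl hi
  map_add' s t := oev_add s t i le_rfl hi

/-- the twist of a morphism -/
noncomputable def twM (g : Coc U) (φ : M ⟶ N) : twO g M ⟶ twO g N :=
  olift g (fun i W hi => (ap φ W).comp (ocomp g M i W hi))
    (fun i W hi r s => by
      change ap φ W (oev (r • s) i le_rfl hi) = r • ap φ W (oev s i le_rfl hi)
      rw [oev_smul, ap_smul, rO_self])
    (fun i W W' hi h s => by
      change rs N h (ap φ W (oev s i le_rfl hi)) =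
        ap φ W' (oev (rs _ h s) i le_rfl (h.trans hi))
      rw [← ap_rs, rs_oev, oev_rs])
    (fun i j W hi hj s => by
      change ap φ W (oev s i le_rfl hi) = g.v i j hi hj • ap φ W (oev s j le_rfl hj)
      rw [oev_eq s i j le_rfl hi hj, ap_smul])

theorem oev_map (φ : M ⟶ N) {V : X.Opens} (s : Γ(twO g M, V)) (i : ι)
    {W : X.Opens} (hV : W ≤ V) (hi : W ≤ U i) :
    oev (ap (twM g φ) V s) i hV hi = ap φ W (oev s i hV hi) := by
  rw [twM, oev_olift]
  change ap φ W (oev (rs _ hV s) i le_rfl hi) = _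
  rw [oev_rs]

/-- the twist functor -/
noncomputable def tw (g : Coc U) : X.Modules ⥤ X.Modules where
  obj M := twO g M
  map φ := twM g φ
  map_id M := hom_ext' (fun V s => oext (fun i => by
    rw [oev_map]
    rfl))
  map_comp φ ψ := hom_ext' (fun V s => oext (fun i => by
    rw [oev_map, ap_comp, ap_comp, oev_map, oev_map]))

/-- the value of a section of the twist with index `i` on a smaller open subset -/
noncomputable def tev {V : X.Opens} (s : Γ((tw g).obj M, V)) (i : ι) {W : X.Opens} (hV : W ≤ V)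
    (hi : W ≤ U i) : Γ(M, W) :=
  oev s i hV hi

/-- constructor of sections of the twist -/
noncomputable def tmk {V : X.Opens} (m : ∀ i, Γ(M, V ⊓ U i))
    (h : ∀ i j, ∀ W : X.Opens, ∀ (hV : W ≤ V) (hi : W ≤ U i) (hj : W ≤ U j),
      rs M (le_inf hV hi) (m i) = g.v i j hi hj • rs M (le_inf hV hj) (m j)) :
    Γ((tw g).obj M, V) :=
  omk m h

@[simp] theorem tev_tmk {V : X.Opens} (m : ∀ i, Γ(M, V ⊓ U i))
    (h : ∀ i j, ∀ W : X.Opens, ∀ (hV : W ≤ V) (hi : W ≤ U i) (hj : W ≤ U j),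
      rs M (le_inf hV hi) (m i) = g.v i j hi hj • rs M (le_inf hV hj) (m j)) (i : ι)
    {W : X.Opens} (hV : W ≤ V) (hi : W ≤ U i) :
    tev (tmk (g := g) m h) i hV hi = rs M (le_inf hV hi) (m i) := rfl

@[simp] theorem rs_tev {V : X.Opens} (s : Γ((tw g).obj M, V)) (i : ι) {W W' : X.Opens}
    (hV : W ≤ V) (hi : W ≤ U i) (h : W' ≤ W) :
    rs M h (tev s i hV hi) = tev s i (h.trans hV) (h.trans hi) :=
  rs_oev _ _ _ _ _

theorem tev_eq {V : X.Opens} (s : Γ((tw g).obj M, V)) (i j : ι) {W : X.Opens} (hV : W ≤ V)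
    (hi : W ≤ U i) (hj : W ≤ U j) : tev s i hV hi = g.v i j hi hj • tev s j hV hj :=
  oev_eq _ _ _ _ _ _

@[simp] theorem tev_rs {V V' : X.Opens} (h : V' ≤ V) (s : Γ((tw g).obj M, V)) (i : ι)
    {W : X.Opens} (hV : W ≤ V') (hi : W ≤ U i) :
    tev (rs ((tw g).obj M) h s) i hV hi = tev s i (hV.trans h) hi :=
  oev_rs h _ i hV hi

@[simp] theorem tev_add {V : X.Opens} (s t : Γ((tw g).obj M, V)) (i : ι) {W : X.Opens}
    (hV : W ≤ V) (hi : W ≤ U i) : tev (s + t) i hV hi = tev s i hV hi + tev t i hV hi :=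
  oev_add s t i hV hi

@[simp] theorem tev_zero {V : X.Opens} (i : ι) {W : X.Opens}
    (hV : W ≤ V) (hi : W ≤ U i) : tev (0 : Γ((tw g).obj M, V)) i hV hi = 0 :=
  oev_zero (g := g) i hV hi

@[simp] theorem tev_neg {V : X.Opens} (s : Γ((tw g).obj M, V)) (i : ι) {W : X.Opens}
    (hV : W ≤ V) (hi : W ≤ U i) : tev (-s) i hV hi = - tev s i hV hi :=
  oev_neg s i hV hi

@[simp] theorem tev_smul {V : X.Opens} (r : Γ(X, V)) (s : Γ((tw g).obj M, V)) (i : ι)
    {W : X.Opens} (hV : W ≤ V) (hi : W ≤ U i) :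
    tev (r • s) i hV hi = rO hV r • tev s i hV hi :=
  oev_smul r s i hV hi

theorem tev_tev {V : X.Opens} (s : Γ((tw g).obj ((tw h).obj M), V)) (i j : ι) {W W' : X.Opens}
    (hV : W ≤ V) (hi : W ≤ U i) (hW : W' ≤ W) (hj : W' ≤ U j) :
    tev (tev s i hV hi) j hW hj =
      tev (tev s i (hW.trans hV) (hW.trans hi)) j le_rfl hj := by
  rw [← rs_tev s i hV hi hW, tev_rs]

theorem text {V : X.Opens} {s t : Γ((tw g).obj M, V)}
    (h : ∀ i, tev s i (inf_le_left : V ⊓ U i ≤ V) inf_le_right =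
      tev t i (inf_le_left : V ⊓ U i ≤ V) inf_le_right) : s = t :=
  oext h

@[simp] theorem tev_map (φ : M ⟶ N) {V : X.Opens} (s : Γ((tw g).obj M, V)) (i : ι)
    {W : X.Opens} (hV : W ≤ V) (hi : W ≤ U i) :
    tev (ap ((tw g).map φ) V s) i hV hi = ap φ W (tev s i hV hi) :=
  oev_map φ s i hV hi

instance : (tw g).Additive where
  map_add {M N φ ψ} := hom_ext' (fun V s => text (fun i => by simp))

/-- a morphism into a twist from a compatible family of local morphisms -/
noncomputable def lift (g : Coc U) (F : ∀ (i : ι) (W : X.Opens), W ≤ U i → (Γ(N, W) →+ Γ(M, W)))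
    (hl : ∀ i W (hi : W ≤ U i) (r : Γ(X, W)) s, F i W hi (r • s) = r • F i W hi s)
    (hr : ∀ i W W' (hi : W ≤ U i) (h : W' ≤ W) s,
      rs M h (F i W hi s) = F i W' (h.trans hi) (rs N h s))
    (hc : ∀ i j W (hi : W ≤ U i) (hj : W ≤ U j) s, F i W hi s = g.v i j hi hj • F j W hj s) :
    N ⟶ (tw g).obj M :=
  olift g F hl hr hc

theorem tev_lift (F : ∀ (i : ι) (W : X.Opens), W ≤ U i → (Γ(N, W) →+ Γ(M, W)))
    (hl : ∀ i W (hi : W ≤ U i) (r : Γ(X, W)) s, F i W hi (r • s) = r • F i W hi s)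
    (hr : ∀ i W W' (hi : W ≤ U i) (h : W' ≤ W) s,
      rs M h (F i W hi s) = F i W' (h.trans hi) (rs N h s))
    (hc : ∀ i j W (hi : W ≤ U i) (hj : W ≤ U j) s, F i W hi s = g.v i j hi hj • F j W hj s)
    {V : X.Opens} (s : Γ(N, V)) (i : ι) {W : X.Opens} (hV : W ≤ V) (hi : W ≤ U i) :
    tev (ap (lift g F hl hr hc) V s) i hV hi = F i W hi (rs N hV s) :=
  oev_olift F hl hr hc s i hV hi

/-- the component with index `i` of a section of the twist, as an additive map -/
noncomputable def comp (g : Coc U) (M : X.Modules) (i : ι) (W : X.Opens) (hi : W ≤ U i) :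
    Γ((tw g).obj M, W) →+ Γ(M, W) where
  toFun s := tev s i le_rfl hi
  map_zero' := tev_zero i le_rfl hi
  map_add' s t := tev_add s t i le_rfl hi

@[simp] theorem comp_apply (i : ι) (W : X.Opens) (hi : W ≤ U i) (s : Γ((tw g).obj M, W)) :
    comp g M i W hi s = tev s i le_rfl hi := rfl

/-! ### products -/

/-- the multiplication morphism of twists -/
noncomputable def mulHom {g h k : Coc U} (e : g * h = k) (M : X.Modules) :
    (tw g).obj ((tw h).obj M) ⟶ (tw k).obj M :=
  lift k (fun i W hi => (comp h M i W hi).comp (comp g _ i W hi))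
    (fun i W hi r s => by simp)
    (fun i W W' hi h s => by
      simp only [AddMonoidHom.comp_apply, comp_apply, rs_tev, tev_rs]
      rw [← tev_rs h, rs_tev])
    (fun i j W hi hj s => by
      simp only [AddMonoidHom.comp_apply, comp_apply]
      rw [tev_eq s i j _ hi hj, tev_smul, tev_eq (g := h) _ i j _ hi hj, ← e, v_mul, mul_smul,
        rO_v])

theorem tev_mulHom {g h k : Coc U} (e : g * h = k) (M : X.Modules) {V : X.Opens}
    (s : Γ((tw g).obj ((tw h).obj M), V)) (i : ι) {W : X.Opens} (hV : W ≤ V) (hi : W ≤ U i) :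
    tev (ap (mulHom e M) V s) i hV hi = tev (tev s i hV hi) i le_rfl hi := by
  rw [mulHom, tev_lift]
  simp

theorem mulHom_naturality {g h k : Coc U} (e : g * h = k) {M N : X.Modules} (φ : M ⟶ N) :
    (tw g).map ((tw h).map φ) ≫ mulHom e N = mulHom e M ≫ (tw k).map φ :=
  hom_ext' (fun V s => text (fun i => by
    simp only [ap_comp, tev_mulHom, tev_map]))

/-- the inverse of the multiplication morphism of twists -/
noncomputable def mulInv {g h k : Coc U} (e : g * h = k) (M : X.Modules) :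
    (tw k).obj M ⟶ (tw g).obj ((tw h).obj M) :=
  lift g (fun i W hi =>
      { toFun := fun s => tmk (fun j => h.v j i inf_le_right (inf_le_left.trans hi) •
            tev s i inf_le_left (inf_le_left.trans hi)) (by
          intro j l W' hW hj hl
          simp only [rs_smul, rO_v, rs_tev]
          rw [← h.v_v j l i hj hl (hW.trans hi), mul_smul])
        map_zero' := text (fun j => by simp)
        map_add' := fun s t => text (fun j => by simp) })
    (fun i W hi r s => text (fun j => by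
      simp only [AddMonoidHom.coe_mk, ZeroHom.coe_mk, tev_tmk, tev_smul, rs_smul, rO_rO, rs_tev,
        rO_v]
      rw [smul_comm]))
    (fun i W W' hi h s => text (fun j => by
      simp only [AddMonoidHom.coe_mk, ZeroHom.coe_mk, tev_tmk, tev_rs, rs_smul, rs_tev,
        rO_v]))
    (fun i j W hi hj s => text (fun l => by
      simp only [AddMonoidHom.coe_mk, ZeroHom.coe_mk, tev_tmk, tev_smul, rs_smul, rs_tev,
        rO_v]
      subst e
      rw [tev_eq s i j _ (inf_le_left.trans hi) (inf_le_left.trans hj), v_mul,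
        ← h.v_v l i j inf_le_right (inf_le_left.trans hi) (inf_le_left.trans hj)]
      simp only [← mul_smul]
      congr 1
      ring))

theorem tev_mulInv {g h k : Coc U} (e : g * h = k) (M : X.Modules) {V : X.Opens}
    (s : Γ((tw k).obj M, V)) (i j : ι) {W W' : X.Opens} (hV : W ≤ V) (hi : W ≤ U i)
    (hW : W' ≤ W) (hj : W' ≤ U j) :
    tev (tev (ap (mulInv e M) V s) i hV hi) j hW hj =
      h.v j i hj (hW.trans hi) • tev s i (hW.trans hV) (hW.trans hi) := by
  rw [mulInv, tev_lift]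
  simp

theorem mulHom_mulInv {g h k : Coc U} (e : g * h = k) (M : X.Modules) :
    mulHom e M ≫ mulInv e M = 𝟙 _ :=
  hom_ext' (fun V s => text (fun i => text (fun j => by
    rw [ap_comp, tev_mulInv, tev_mulHom, ap_id,
      tev_eq (tev s i inf_le_left inf_le_right) j i _ inf_le_right
        (inf_le_left.trans inf_le_right)]
    congr 1
    exact (tev_tev s i i _ _ _ _).symm)))

theorem mulInv_mulHom {g h k : Coc U} (e : g * h = k) (M : X.Modules) :
    mulInv e M ≫ mulHom e M = 𝟙 _ :=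
  hom_ext' (fun V s => text (fun i => by
    rw [ap_comp, tev_mulHom, tev_mulInv, ap_id, v_self, one_smul]))

/-- the product of two twists is the twist by the product -/
noncomputable def mulIso {g h k : Coc U} (e : g * h = k) : tw h ⋙ tw g ≅ tw k :=
  NatIso.ofComponents (fun M =>
    { hom := mulHom e M
      inv := mulInv e M
      hom_inv_id := mulHom_mulInv e M
      inv_hom_id := mulInv_mulHom e M }) (fun φ => mulHom_naturality e φ)

end Coc

end Fdim
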