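import Pool.Agent.Work.MP_f714fc_ag.Tw.AmpleGen
import Pool.Agent.Work.MP_f714fc_ag.Tw.TwSec
import Pool.Agent.Work.MP_f714fc_ag.Tw.Local
import Pool.Agent.Work.MP_f714fc_ag.Abs.SerreDef

/-!
# Ampleness from sections with affine loci
-/

open CategoryTheory Limits TopologicalSpace AlgebraicGeometry Opposite

attribute [-instance] CategoryTheory.catToReflQuiver

universe u

namespace Fdim

variable {X : Scheme.{u}} {ι : Type u} {U : ι → X.Opens}

namespace Coc

/-- the family of components of a section of the twist of the structure sheaf -/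
noncomputable def sctOf {g : Coc U} (s : Γ((tw g).obj (OO X), (⊤ : X.Opens))) : Sct g where
  c i := sv s i le_top (le_refl (U i))
  comp i j W hi hj := by
    rw [rO_sv, rO_sv]
    exact sv_eq s i j _ hi hj

@[simp] theorem sctOf_v {g : Coc U} (s : Γ((tw g).obj (OO X), (⊤ : X.Opens))) (i : ι)
    {W : X.Opens} (hi : W ≤ U i) : (sctOf s).v i hi = sv s i le_top hi :=
  rO_sv s i le_top (le_refl (U i)) hi

/-- auxiliary: multiples of a section -/
noncomputable def secMul {M : X.Modules} (m : Γ(M, (⊤ : X.Opens))) (V : X.Opens) :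
    Γ(X, V) →+ Γ(M, V) where
  toFun s := s • rs M le_top m
  map_zero' := zero_smul _ _
  map_add' s t := add_smul s t _

/-- the morphism from the structure sheaf with a given value at the unit section -/
noncomputable def homOfSec {M : X.Modules} (m : Γ(M, (⊤ : X.Opens))) : OO X ⟶ M :=
  homMk (M := OO X) (fun V => (secMul m V : Γ(X, V) →+ Γ(M, V)))
    (fun V (r : Γ(X, V)) (s : Γ(X, V)) => mul_smul r s (rs M le_top m))
    (fun {V W} h (s : Γ(X, V)) => by
      change rO h s • rs M le_top m = rs M h (s • rs M le_top m)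
      rw [rs_smul, rs_rs])

theorem ap_homOfSec {M : X.Modules} (m : Γ(M, (⊤ : X.Opens))) (V : X.Opens) (s : Γ(X, V)) :
    ap (homOfSec m) V s = s • rs M le_top m := rfl

theorem ap_homOfSec_one {M : X.Modules} (m : Γ(M, (⊤ : X.Opens))) :
    ap (homOfSec m) ⊤ (1 : Γ(X, ⊤)) = m := by
  rw [ap_homOfSec, one_smul, rs_self]

/-- **Ampleness**, in the category of sheaves of modules: large twists of a coherent sheaf are
generated by finitely many global sections. -/
theorem genBySections [CompactSpace X] [QuasiSeparatedSpace X] [IsCov U]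
    {g : Coc U} {α : Type*} [Finite α] (σ : α → Sct g) (haff : ∀ a, IsAffineOpen (σ a).locus)
    (hσ : ⨆ a, (σ a).locus = ⊤) {M : X.Modules} (hM : IsCoh X M) :
    ∃ n₀ : ℤ, ∀ n ≥ n₀, ∃ (j : ℕ) (f : Fin j → (OO X ⟶ (tw (g ^ n)).obj M)),
      ∀ (B : X.Modules) (φ : (tw (g ^ n)).obj M ⟶ B), (∀ l, f l ≫ φ = 0) → φ = 0 := by
  have := hM.1
  obtain ⟨N₀, hN⟩ := exists_gen (IsCov.cov (U := U)).ge σ haff hσ.ge M
    (fun a => hM.2 ⟨(σ a).locus, haff a⟩)
  refine ⟨N₀, fun n hn => ?_⟩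
  obtain ⟨m, rfl⟩ : ∃ m : ℕ, n = m := ⟨n.toNat, by omega⟩
  obtain ⟨j, t, ht⟩ := hN m (by omega)
  rw [zpow_natCast]
  refine ⟨j, fun l => homOfSec (t l), fun B φ hφ => ht B φ (fun l => ?_)⟩
  have h1 : ap (homOfSec (t l) ≫ φ) ⊤ (1 : Γ(X, ⊤)) = 0 := by
    rw [hφ l]
    rfl
  rwa [ap_comp, ap_homOfSec_one] at h1

/-- **Ampleness** in the category of coherent sheaves, for any functors on coherent sheaves which
are the twists by the powers of the cocycle. -/
theorem isAmpleTwist [CompactSpace X] [QuasiSeparatedSpace X] [IsCov U]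
    {g : Coc U} {α : Type*} [Finite α] (σ : α → Sct g) (haff : ∀ a, IsAffineOpen (σ a).locus)
    (hσ : ⨆ a, (σ a).locus = ⊤) (T : ℤ → (Coh X ⥤ Coh X))
    (hT : ∀ n A, Nonempty (((T n).obj A).obj ≅ (tw (g ^ n)).obj A.obj)) :
    IsAmpleTwist (Coh.O X) T := by
  intro A
  obtain ⟨n₀, hn₀⟩ := genBySections σ haff hσ A.property
  refine ⟨n₀, fun n hn => ?_⟩
  obtain ⟨j, f, hf⟩ := hn₀ n hn
  obtain ⟨e⟩ := hT n A
  refine ⟨j, fun l => ⟨(f l ≫ e.inv : OO X ⟶ ((T n).obj A).obj)⟩, fun B φ hφ => ?_⟩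
  have h1 : e.inv ≫ φ.hom = 0 := by
    apply hf
    intro l
    have h2 := congrArg (fun ψ => ψ.hom) (hφ l)
    rw [← Category.assoc]
    exact h2
  ext1
  rw [← cancel_epi e.inv, h1]
  exact comp_zero.symm

end Coc

end Fdim
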