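import Pool.Agent.Work.MP_f714fc_ag.Tw.Sec

/-!
# Constructors of sheaves of modules and of their morphisms from explicit data
-/

open CategoryTheory Limits TopologicalSpace AlgebraicGeometry Opposite

attribute [-instance] CategoryTheory.catToReflQuiver

universe u

namespace Fdim

variable {X : Scheme.{u}}

/-- explicit data of a sheaf of modules -/
structure SecData (X : Scheme.{u}) where
  /-- sections -/
  sec : X.Opens → Type u
  grp : ∀ U, AddCommGroup (sec U)
  mod : ∀ U, Module Γ(X, U) (sec U)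
  /-- restriction -/
  res : ∀ {U V : X.Opens}, V ≤ U → sec U →+ sec V
  res_self : ∀ {U : X.Opens} (h : U ≤ U) (s : sec U), res h s = s
  res_res : ∀ {U V W : X.Opens} (h : V ≤ U) (h' : W ≤ V) (s : sec U),
    res h' (res h s) = res (h'.trans h) s
  res_smul : ∀ {U V : X.Opens} (h : V ≤ U) (r : Γ(X, U)) (s : sec U),
    res h (r • s) = rO h r • res h s
  glue : ∀ {ι : Type u} (U : ι → X.Opens) (s : ∀ i, sec (U i)),
    (∀ i j, res (inf_le_left : U i ⊓ U j ≤ U i) (s i) = res inf_le_right (s j)) →
    ∃! t : sec (⨆ i, U i), ∀ i, res (le_iSup U i) t = s i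

namespace SecData

variable (D : SecData X)

attribute [instance] SecData.grp SecData.mod

/-- the presheaf of abelian groups -/
def psh : TopCat.Presheaf Ab.{u} X where
  obj U := AddCommGrpCat.of (D.sec U.unop)
  map f := AddCommGrpCat.ofHom (D.res (leOfHom f.unop))
  map_id U := by
    ext s
    exact D.res_self _ s
  map_comp f g := by
    ext s
    exact (D.res_res _ _ s).symm

theorem psh_isSheaf : D.psh.IsSheaf := by
  rw [TopCat.Presheaf.isSheaf_iff_isSheafUniqueGluing]
  intro ι U s hs
  exact D.glue U s hs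

noncomputable instance (U : X.Opensᵒᵖ) : Module (X.ringCatSheaf.obj.obj U) (D.psh.obj U) :=
  D.mod U.unop

/-- the presheaf of modules -/
noncomputable def pshMod : X.PresheafOfModules :=
  PresheafOfModules.ofPresheaf (R := X.ringCatSheaf.obj) D.psh
    (fun _ _ f r m => D.res_smul (leOfHom f.unop) r m)

/-- the sheaf of modules with the given sections -/
noncomputable def shf : X.Modules :=
  (⟨D.pshMod, D.psh_isSheaf⟩ : SheafOfModules X.ringCatSheaf)

/-- a section from its data -/
noncomputable def toS {U : X.Opens} (s : D.sec U) : Γ(D.shf, U) := s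

/-- the data of a section -/
noncomputable def ofS {U : X.Opens} (s : Γ(D.shf, U)) : D.sec U := s

@[simp] theorem ofS_toS {U : X.Opens} (s : D.sec U) : D.ofS (D.toS s) = s := rfl

@[simp] theorem toS_ofS {U : X.Opens} (s : Γ(D.shf, U)) : D.toS (D.ofS s) = s := rfl

theorem ofS_injective {U : X.Opens} {s t : Γ(D.shf, U)} (h : D.ofS s = D.ofS t) : s = t := h

@[simp] theorem ofS_rs {U V : X.Opens} (h : V ≤ U) (s : Γ(D.shf, U)) :
    D.ofS (rs D.shf h s) = D.res h (D.ofS s) := rfl

@[simp] theorem ofS_smul {U : X.Opens} (r : Γ(X, U)) (s : Γ(D.shf, U)) :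
    D.ofS (r • s) = r • D.ofS s := rfl

@[simp] theorem ofS_add {U : X.Opens} (s t : Γ(D.shf, U)) :
    D.ofS (s + t) = D.ofS s + D.ofS t := rfl

@[simp] theorem ofS_zero {U : X.Opens} : D.ofS (0 : Γ(D.shf, U)) = 0 := rfl

end SecData

/-- constructor of morphisms -/
noncomputable def homMk' {M N : X.Modules} (f : ∀ U : X.Opens, Γ(M, U) →+ Γ(N, U))
    (hs : ∀ (U : X.Opens) (r : Γ(X, U)) (s : Γ(M, U)), f U (r • s) = r • f U s)
    (hr : ∀ {U V : X.Opens} (h : V ≤ U) (s : Γ(M, U)), f V (rs M h s) = rs N h (f U s)) :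
    M ⟶ N :=
  Scheme.Modules.fullyFaithfulToPresheafOfModules.preimage
    (PresheafOfModules.homMk
      { app := fun U => AddCommGrpCat.ofHom (f U.unop)
        naturality := fun U V i => by
          ext s
          exact hr (leOfHom i.unop) s }
      (fun U r m => hs U.unop r m))

/-- a morphism which is bijective on all sections is an isomorphism -/
theorem isIso_of_bijective {M N : X.Modules} (φ : M ⟶ N)
    (h : ∀ U, Function.Bijective (ap φ U)) : IsIso φ := by
  rw [Scheme.Modules.Hom.isIso_iff_isIso_app]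
  intro U
  rw [ConcreteCategory.isIso_iff_bijective]
  exact h U

theorem bijective_of_isIso {M N : X.Modules} (φ : M ⟶ N) [IsIso φ] (U : X.Opens) :
    Function.Bijective (ap φ U) := by
  have : IsIso (φ.app U) := inferInstance
  rw [ConcreteCategory.isIso_iff_bijective] at this
  exact this

/-- a morphism which is locally bijective on sections is an isomorphism -/
theorem isIso_of_locally {M N : X.Modules} (φ : M ⟶ N) {ι : Type*} (U : ι → X.Opens)
    (hU : ⨆ i, U i = ⊤) (h : ∀ i, ∀ V ≤ U i, Function.Bijective (ap φ V)) : IsIso φ := by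
  refine isIso_of_bijective φ fun V => ?_
  have hV : ∀ i, U i ⊓ V ≤ V := fun i => inf_le_right
  have hc : V ≤ ⨆ i, U i ⊓ V := by
    rw [← iSup_inf_eq, hU, top_inf_eq]
  have hinj : ∀ {W : X.Opens}, Function.Injective (ap φ W) := by
    intro W
    rw [injective_iff_map_eq_zero]
    intro s hs
    have hW : ∀ i, U i ⊓ W ≤ W := fun i => inf_le_right
    have hcW : W ≤ ⨆ i, U i ⊓ W := by rw [← iSup_inf_eq, hU, top_inf_eq]
    refine sec_ext M hW hcW fun i => ?_
    rw [map_zero]
    apply (h i _ inf_le_left).1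
    rw [ap_rs, hs, map_zero, map_zero]
  refine ⟨hinj, fun t => ?_⟩
  choose s hs using fun i => (h i (U i ⊓ V) inf_le_left).2 (rs N (hV i) t)
  obtain ⟨r, hr⟩ := exists_glue M hV hc s (by
    intro i j
    apply hinj
    rw [ap_rs, ap_rs, hs, hs, rs_rs, rs_rs])
  refine ⟨r, sec_ext N hV hc fun i => ?_⟩
  rw [← ap_rs, hr, hs]

/-- injective on sections implies mono -/
theorem mono_of_injective {M N : X.Modules} (φ : M ⟶ N)
    (h : ∀ U, Function.Injective (ap φ U)) : Mono φ := by
  constructor
  intro Z f g hfg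
  apply hom_ext'
  intro U s
  apply h U
  rw [← ap_comp, ← ap_comp, hfg]

/-- locally surjective on sections implies epi -/
theorem epi_of_locally {M N : X.Modules} (φ : M ⟶ N)
    (h : ∀ (U : X.Opens) (t : Γ(N, U)) (x : X), x ∈ U → ∃ (V : X.Opens) (hV : V ≤ U),
      x ∈ V ∧ ∃ s : Γ(M, V), ap φ V s = rs N hV t) : Epi φ := by
  constructor
  intro Z f g hfg
  apply hom_ext'
  intro U t
  choose V hV hx s hs using fun x : U => h U t x.1 x.2
  refine sec_ext Z (U := V) hV (fun x hx' => ?_) fun x => ?_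
  · rw [Opens.mem_iSup]
    exact ⟨⟨x, hx'⟩, hx _⟩
  · rw [← ap_rs, ← ap_rs, ← hs x, ← ap_comp, ← ap_comp, hfg]

@[simp] theorem ap_homMk' {M N : X.Modules} (f : ∀ U : X.Opens, Γ(M, U) →+ Γ(N, U)) (hs) (hr)
    (U : X.Opens) (s : Γ(M, U)) :
    ap (homMk' (M := M) (N := N) f hs hr) U s = f U s := rfl

end Fdim
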