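import Pool.Agent.Work.MP_f714fc_ag.Tw.TwSec
import Pool.Agent.Work.MP_f714fc_ag.Tw.AmpleExt
import Pool.Agent.Work.MP_f714fc_ag.Geo.RankTw

/-!
# The Koszul sequence of two sections without common zeros
-/

open CategoryTheory Limits TopologicalSpace AlgebraicGeometry Opposite

attribute [-instance] CategoryTheory.catToReflQuiver

universe u

namespace Fdim

variable {X : Scheme.{u}}

/-- exactness from local lifts of sections -/
theorem exact_of_locally (S : ShortComplex X.Modules)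
    (h : ∀ (V : X.Opens) (s : Γ(S.X₂, V)), ap S.g V s = 0 → ∀ x : X, x ∈ V →
      ∃ (W : X.Opens) (hW : W ≤ V), x ∈ W ∧ ∃ t : Γ(S.X₁, W), ap S.f W t = rs S.X₂ hW s) :
    S.Exact := by
  rw [ShortComplex.exact_iff_epi_kernel_lift]
  apply epi_of_locally
  intro V t x hx
  have h1 : ap S.g V (ap (kernel.ι S.g) V t) = 0 := by
    rw [← ap_comp, kernel.condition, ap_zero]
  obtain ⟨W, hW, hxW, s, hs⟩ := h V _ h1 x hx
  refine ⟨W, hW, hxW, s, ?_⟩
  apply inj_of_mono (kernel.ι S.g) W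
  rw [← ap_comp, kernel.lift_ι, hs, ap_rs]

/-- sections of a biproduct are determined by their components -/
theorem biprod_sec_ext {A B : X.Modules} {V : X.Opens} {s t : Γ(A ⊞ B, V)}
    (h1 : ap (biprod.fst : A ⊞ B ⟶ A) V s = ap (biprod.fst : A ⊞ B ⟶ A) V t)
    (h2 : ap (biprod.snd : A ⊞ B ⟶ B) V s = ap (biprod.snd : A ⊞ B ⟶ B) V t) : s = t := by
  have h : ∀ z : Γ(A ⊞ B, V), z = ap (biprod.inl : A ⟶ A ⊞ B) V (ap biprod.fst V z) +
      ap (biprod.inr : B ⟶ A ⊞ B) V (ap biprod.snd V z) := by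
    intro z
    rw [← ap_comp, ← ap_comp, ← ap_add, biprod.total, ap_id]
  rw [h s, h t, h1, h2]

namespace Coc

variable {ι : Type u} {U : ι → X.Opens}

namespace Sct

variable {g h k : Coc U} (σ τ : Sct g)

/-- multiplication by a section, as a morphism of twists -/
noncomputable def mulTw (e : g * h = k) (M : X.Modules) : (tw h).obj M ⟶ (tw k).obj M :=
  lift k (fun i W hi =>
      { toFun := fun s => σ.v i hi • tev s i le_rfl hi
        map_zero' := by simp
        map_add' := fun s t => by simp })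
    (fun i W hi r s => by
      simp only [AddMonoidHom.coe_mk, ZeroHom.coe_mk, tev_smul, rO_self]
      rw [smul_comm])
    (fun i W W' hi h s => by
      simp only [AddMonoidHom.coe_mk, ZeroHom.coe_mk, rs_smul, rO_v, rs_tev, tev_rs])
    (fun i j W hi hj s => by
      simp only [AddMonoidHom.coe_mk, ZeroHom.coe_mk]
      rw [σ.v_eq i j hi hj, tev_eq s i j _ hi hj, ← e, Coc.v_mul]
      simp only [← mul_smul]
      congr 1
      ring)

@[simp] theorem tev_mulTw (e : g * h = k) (M : X.Modules) {V : X.Opens}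
    (s : Γ((tw h).obj M, V)) (i : ι) {W : X.Opens} (hV : W ≤ V) (hi : W ≤ U i) :
    tev (ap (σ.mulTw e M) V s) i hV hi = σ.v i hi • tev s i hV hi := by
  rw [mulTw, tev_lift]
  simp

end Sct

/-- two sections of a twist over an open subset of a chart agree if their components do -/
theorem tw_ext {g : Coc U} {M : X.Modules} {W : X.Opens} (i : ι) (hi : W ≤ U i)
    {s t : Γ((tw g).obj M, W)} (h : tev s i le_rfl hi = tev t i le_rfl hi) : s = t :=
  (twSec g M i hi).injective h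

/-- a section of a twist over an open subset of a chart with prescribed component -/
theorem tw_exists {g : Coc U} {M : X.Modules} {W : X.Opens} (i : ι) (hi : W ≤ U i)
    (m : Γ(M, W)) : ∃ s : Γ((tw g).obj M, W), tev s i le_rfl hi = m :=
  (twSec g M i hi).surjective m

/-- L2: Koszul sequence of two sections without common zeros, one of them a unit on every
chart -/
theorem koszul {g : Coc U} (hU : ⨆ i, U i = ⊤) (s t : Sct g)
    (H : ∀ i, IsUnit (s.c i) ∨ IsUnit (t.c i)) (M : X.Modules) :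
    ∃ S : ShortComplex X.Modules, S.ShortExact ∧
      Nonempty (S.X₁ ≅ (Coc.tw (g ^ (-2 : ℤ))).obj M) ∧
      Nonempty (S.X₂ ≅ (Coc.tw (g ^ (-1 : ℤ))).obj M ⊞ (Coc.tw (g ^ (-1 : ℤ))).obj M) ∧
      Nonempty (S.X₃ ≅ M) := by
  have hcov : IsCov U := ⟨hU⟩
  have e1 : g * g ^ (-2 : ℤ) = g ^ (-1 : ℤ) := by group
  have e2 : g * g ^ (-1 : ℤ) = 1 := by group
  have H' : ∀ i (W : X.Opens) (hi : W ≤ U i), IsUnit (s.v i hi) ∨ IsUnit (t.v i hi) :=
    fun i W hi => (H i).imp (fun h => h.map (rO hi)) (fun h => h.map (rO hi))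
  let f : (tw (g ^ (-2 : ℤ))).obj M ⟶ (tw (g ^ (-1 : ℤ))).obj M ⊞ (tw (g ^ (-1 : ℤ))).obj M :=
    biprod.lift (t.mulTw e1 M) (-(s.mulTw e1 M))
  let p : (tw (g ^ (-1 : ℤ))).obj M ⊞ (tw (g ^ (-1 : ℤ))).obj M ⟶ (tw (1 : Coc U)).obj M :=
    biprod.desc (s.mulTw e2 M) (t.mulTw e2 M)
  have hneg : ∀ {A B : X.Modules} (φ : A ⟶ B) (V : X.Opens) (x : Γ(A, V)),
      ap (-φ) V x = - ap φ V x := by
    intro A B φ V x
    have h1 : ap (-φ) V x + ap φ V x = 0 := by
      rw [← ap_add, neg_add_cancel, ap_zero]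
    exact eq_neg_of_add_eq_zero_left h1
  have hf1 : ∀ (V : X.Opens) (y : Γ((tw (g ^ (-2 : ℤ))).obj M, V)),
      ap biprod.fst V (ap f V y) = ap (t.mulTw e1 M) V y := by
    intro V y
    rw [← ap_comp, biprod.lift_fst]
  have hf2 : ∀ (V : X.Opens) (y : Γ((tw (g ^ (-2 : ℤ))).obj M, V)),
      ap biprod.snd V (ap f V y) = - ap (s.mulTw e1 M) V y := by
    intro V y
    rw [← ap_comp, biprod.lift_snd, hneg]
  have hp : ∀ (V : X.Opens) (x : Γ((tw (g ^ (-1 : ℤ))).obj M ⊞ (tw (g ^ (-1 : ℤ))).obj M, V)),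
      ap p V x = ap (s.mulTw e2 M) V (ap biprod.fst V x) +
        ap (t.mulTw e2 M) V (ap biprod.snd V x) := by
    intro V x
    rw [← ap_comp, ← ap_comp, ← ap_add, ← biprod.desc_eq]
  have hzero : f ≫ p = 0 := by
    refine hom_text fun V y i hi hi' => ?_
    rw [ap_comp, hp, hf1, hf2, map_neg, tev_add, tev_neg, Sct.tev_mulTw, Sct.tev_mulTw,
      Sct.tev_mulTw, Sct.tev_mulTw, ap_zero, tev_zero, smul_comm, add_neg_cancel]
  let S : ShortComplex X.Modules := ShortComplex.mk f p hzero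
  have hmono : Mono f := by
    apply mono_of_injective
    intro V
    rw [injective_iff_map_eq_zero]
    intro y hy
    refine text fun i => ?_
    have h1 : t.v i (inf_le_right : V ⊓ U i ≤ U i) • tev y i inf_le_left inf_le_right = 0 := by
      rw [← Sct.tev_mulTw t e1 M, ← hf1, hy, map_zero, tev_zero]
    have h2 : s.v i (inf_le_right : V ⊓ U i ≤ U i) • tev y i inf_le_left inf_le_right = 0 := by
      rw [← Sct.tev_mulTw s e1 M, ← neg_eq_zero, ← tev_neg, ← hf2, hy, map_zero, tev_zero]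
    rw [tev_zero]
    rcases H' i _ (inf_le_right : V ⊓ U i ≤ U i) with hu | hu
    · exact (hu.smul_eq_zero).1 h2
    · exact (hu.smul_eq_zero).1 h1
  have hepi : Epi p := by
    apply epi_of_locally
    intro V z x hx
    obtain ⟨i, hxi⟩ : ∃ i, x ∈ U i := by
      have : x ∈ ⨆ i, U i := by rw [hU]; trivial
      exact Opens.mem_iSup.1 this
    refine ⟨V ⊓ U i, inf_le_left, ⟨hx, hxi⟩, ?_⟩
    have hi : V ⊓ U i ≤ U i := inf_le_right
    rcases H' i _ hi with hu | hu
    · obtain ⟨v, hv⟩ := hu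
      obtain ⟨a, ha⟩ := tw_exists (g := g ^ (-1 : ℤ)) (M := M) i hi
        (((v⁻¹ : (Γ(X, V ⊓ U i))ˣ) : Γ(X, V ⊓ U i)) • tev z i inf_le_left hi)
      refine ⟨ap biprod.inl _ a, ?_⟩
      rw [← ap_comp, biprod.inl_desc]
      refine tw_ext i hi ?_
      rw [Sct.tev_mulTw, ha, ← hv, smul_smul, Units.mul_inv, one_smul, tev_rs]
    · obtain ⟨v, hv⟩ := hu
      obtain ⟨a, ha⟩ := tw_exists (g := g ^ (-1 : ℤ)) (M := M) i hi
        (((v⁻¹ : (Γ(X, V ⊓ U i))ˣ) : Γ(X, V ⊓ U i)) • tev z i inf_le_left hi)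
      refine ⟨ap biprod.inr _ a, ?_⟩
      rw [← ap_comp, biprod.inr_desc]
      refine tw_ext i hi ?_
      rw [Sct.tev_mulTw, ha, ← hv, smul_smul, Units.mul_inv, one_smul, tev_rs]
  have hexact : S.Exact := by
    apply exact_of_locally
    intro V z hz x hx
    obtain ⟨i, hxi⟩ : ∃ i, x ∈ U i := by
      have : x ∈ ⨆ i, U i := by rw [hU]; trivial
      exact Opens.mem_iSup.1 this
    refine ⟨V ⊓ U i, inf_le_left, ⟨hx, hxi⟩, ?_⟩
    have hi : V ⊓ U i ≤ U i := inf_le_right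
    have hz' : ap (s.mulTw e2 M) V (ap biprod.fst V z) +
        ap (t.mulTw e2 M) V (ap biprod.snd V z) = 0 := by
      rw [← hp]
      exact hz
    have hc : s.v i hi • tev (ap biprod.fst V z) i inf_le_left hi +
        t.v i hi • tev (ap biprod.snd V z) i inf_le_left hi = 0 := by
      rw [← Sct.tev_mulTw s e2 M, ← Sct.tev_mulTw t e2 M, ← tev_add, hz', tev_zero]
    obtain ⟨m, hm1, hm2⟩ : ∃ m : Γ(M, V ⊓ U i),
        t.v i hi • m = tev (ap biprod.fst V z) i inf_le_left hi ∧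
        - (s.v i hi • m) = tev (ap biprod.snd V z) i inf_le_left hi := by
      generalize tev (ap biprod.fst V z) i inf_le_left hi = a at hc
      generalize tev (ap biprod.snd V z) i inf_le_left hi = b at hc
      rcases H' i _ hi with hu | hu
      · obtain ⟨v, hv⟩ := hu
        rw [← hv] at hc ⊢
        have hb : t.v i hi • b = - ((v : Γ(X, V ⊓ U i)) • a) := by
          rw [add_comm] at hc
          exact eq_neg_of_add_eq_zero_left hc
        refine ⟨- (((v⁻¹ : (Γ(X, V ⊓ U i))ˣ) : Γ(X, V ⊓ U i)) • b), ?_, ?_⟩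
        · rw [smul_neg, smul_comm, hb, smul_neg, neg_neg, smul_smul, Units.inv_mul, one_smul]
        · rw [smul_neg, neg_neg, smul_smul, Units.mul_inv, one_smul]
      · obtain ⟨v, hv⟩ := hu
        rw [← hv] at hc ⊢
        have ha : s.v i hi • a = - ((v : Γ(X, V ⊓ U i)) • b) :=
          eq_neg_of_add_eq_zero_left hc
        refine ⟨((v⁻¹ : (Γ(X, V ⊓ U i))ˣ) : Γ(X, V ⊓ U i)) • a, ?_, ?_⟩
        · rw [smul_smul, Units.mul_inv, one_smul]
        · rw [smul_comm, ha, smul_neg, neg_neg, smul_smul, Units.inv_mul, one_smul]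
    obtain ⟨y, hy⟩ := tw_exists (g := g ^ (-2 : ℤ)) (M := M) i hi m
    refine ⟨y, ?_⟩
    apply biprod_sec_ext
    · change ap biprod.fst _ (ap f _ y) = _
      rw [hf1]
      refine tw_ext i hi ?_
      rw [Sct.tev_mulTw, hy, hm1]
      erw [ap_rs]
      rw [tev_rs]
    · change ap biprod.snd _ (ap f _ y) = _
      rw [hf2]
      refine tw_ext i hi ?_
      rw [tev_neg, Sct.tev_mulTw, hy, hm2]
      erw [ap_rs]
      rw [tev_rs]
  refine ⟨S, { exact := hexact, mono_f := hmono, epi_g := hepi }, ⟨Iso.refl _⟩,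
    ⟨Iso.refl _⟩, ⟨(oneIsoApp rfl M).symm⟩⟩

end Coc

end Fdim
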