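import Pool.Agent.Work.MP_f714fc_ag.Tw.TwSec

/-!
# The shift of `X.Modules` by the twists by a group of cocycles
-/

open CategoryTheory Limits TopologicalSpace AlgebraicGeometry Opposite

attribute [-instance] CategoryTheory.catToReflQuiver

universe u

namespace Fdim

variable {X : Scheme.{u}} {ι : Type u} {U : ι → X.Opens}

namespace Coc

variable {G : Type*} [AddCommMonoid G] (φ : Multiplicative G →* Coc U)

/-- the cocycle with index `a` -/
noncomputable abbrev at' (a : G) : Coc U := φ (Multiplicative.ofAdd a)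

theorem at_zero : at' φ 0 = 1 := map_one φ

theorem at_add (a b : G) : at' φ b * at' φ a = at' φ (a + b) := by
  rw [mul_comm]
  exact (map_mul φ _ _).symm

theorem assoc_aux (m₁ m₂ m₃ : G) (M : X.Modules)
    (h : (tw (at' φ (m₁ + m₂ + m₃))).obj M = (tw (at' φ (m₁ + (m₂ + m₃)))).obj M) :
    mulInv (at_add φ (m₁ + m₂) m₃) M ≫ (tw (at' φ m₃)).map (mulInv (at_add φ m₁ m₂) M) =
      eqToHom h ≫ mulInv (at_add φ m₁ (m₂ + m₃)) M ≫
        mulInv (at_add φ m₂ m₃) ((tw (at' φ m₁)).obj M) := by
  refine hom_ext' (fun V s => text (fun i => text (fun j => text (fun l => ?_))))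
  rw [ap_comp, ap_comp, ap_comp, tev_map, tev_mulInv, tev_mulInv,
    tev_mulInv (at_add φ m₂ m₃), tev_smul, tev_mulInv (at_add φ m₁ (m₂ + m₃)),
    tev_eqToHom (by rw [add_assoc]), rO_v, ← at_add φ m₁ m₂, v_mul,
    ← (at' φ m₁).v_v l j i inf_le_right (inf_le_left.trans inf_le_right)
      (inf_le_left.trans (inf_le_left.trans inf_le_right)), ← mul_smul, ← mul_smul]
  congr 1
  ring

theorem zero_add_aux [IsCov U] (n : G) (M : X.Modules)
    (h : (tw (at' φ (0 + n))).obj M = (tw (at' φ n)).obj M) :
    mulInv (at_add φ 0 n) M = eqToHom h ≫ (tw (at' φ n)).map (oneHom (at_zero φ) M) := by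
  refine hom_ext' (fun V s => text (fun i => text (fun j => ?_)))
  rw [ap_comp, tev_map, tev_mulInv, tev_oneHom, rs_tev, tev_eqToHom (by rw [zero_add]),
    at_zero, v_one, one_smul]

theorem add_zero_aux [IsCov U] (n : G) (M : X.Modules)
    (h : (tw (at' φ (n + 0))).obj M = (tw (at' φ n)).obj M) :
    mulInv (at_add φ n 0) M = eqToHom h ≫ oneHom (at_zero φ) ((tw (at' φ n)).obj M) := by
  refine hom_ext' (fun V s => text (fun i => text (fun j => ?_)))
  rw [ap_comp, tev_mulInv, tev_oneHom, tev_rs, tev_eqToHom (by rw [add_zero])]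
  have e : (at' φ n).v j i (W := V ⊓ U i ⊓ U j) inf_le_right (inf_le_left.trans inf_le_right) =
      (at' φ (n + 0)).v j i inf_le_right (inf_le_left.trans inf_le_right) := by rw [add_zero]
  rw [e]
  exact (tev_eq s j i _ inf_le_right (inf_le_left.trans inf_le_right)).symm

/-- the twists by a group of cocycles form a shift -/
noncomputable def shiftCore [IsCov U] : ShiftMkCore X.Modules G where
  F n := tw (at' φ n)
  zero := (oneIso (at_zero φ)).symm
  add n m := (mulIso (at_add φ n m)).symm
  assoc_hom_app m₁ m₂ m₃ M := assoc_aux φ m₁ m₂ m₃ M _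
  zero_add_hom_app n M := zero_add_aux φ n M _
  add_zero_hom_app n M := add_zero_aux φ n M _

/-- the shift of `X.Modules` by twists; use it as a local instance -/
@[implicit_reducible]
noncomputable def hasShift [IsCov U] : HasShift X.Modules G := hasShiftMk _ _ (shiftCore φ)

section

variable [IsCov U]

theorem shiftFunctor_eq (a : G) :
    @shiftFunctor X.Modules G _ _ (hasShift φ) a = tw (at' φ a) := rfl

theorem shiftFunctorZero_inv_app (M : X.Modules) :
    (@shiftFunctorZero X.Modules G _ _ (hasShift φ)).inv.app M = oneHom (at_zero φ) M := rfl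

theorem shiftFunctorAdd_inv_app (a b : G) (M : X.Modules) :
    (@shiftFunctorAdd X.Modules G _ _ (hasShift φ) a b).inv.app M =
      mulHom (at_add φ a b) M := rfl

theorem shiftFunctorAdd'_inv_app (a b c : G) (h : a + b = c) (M : X.Modules) :
    (@shiftFunctorAdd' X.Modules G _ _ (hasShift φ) a b c h).inv.app M =
      mulHom ((at_add φ a b).trans (congrArg (at' φ) h)) M := by
  subst h
  let := hasShift φ
  rw [shiftFunctorAdd'_eq_shiftFunctorAdd]
  exact shiftFunctorAdd_inv_app φ a b M

end

end Coc

end Fdim
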