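import Pool.Agent.Work.MP_f714fc_ag.Tw.Local
import Pool.Agent.Work.MP_f714fc_ag.Tw.TwShift

/-!
# The twist of coherent sheaves
-/

open CategoryTheory Limits TopologicalSpace AlgebraicGeometry Opposite

attribute [-instance] CategoryTheory.catToReflQuiver

universe u

namespace Fdim

noncomputable section

section Core

universe v₁ u₁

variable {C : Type u₁} [Category.{v₁} C] {A : Type*} [AddMonoid A] (P : ObjectProperty C)

theorem hom_eqToHom {Y Z : P.FullSubcategory} (h : Y = Z) :
    (eqToHom h).hom = eqToHom (congrArg ObjectProperty.FullSubcategory.obj h) := by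
  subst h
  rfl

/-- restriction of a shift to a full subcategory -/
def restrictCore (K : ShiftMkCore C A) (h : ∀ a Y, P Y → P ((K.F a).obj Y)) :
    ShiftMkCore P.FullSubcategory A where
  F a := P.lift (P.ι ⋙ K.F a) (fun Y => h a _ Y.property)
  zero := NatIso.ofComponents (fun Y => P.isoMk (K.zero.app Y.obj))
    (fun f => P.hom_ext (K.zero.hom.naturality f.hom))
  add n m := NatIso.ofComponents (fun Y => P.isoMk ((K.add n m).app Y.obj))
    (fun f => P.hom_ext ((K.add n m).hom.naturality f.hom))
  assoc_hom_app m₁ m₂ m₃ Y := P.hom_ext (by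
    refine (K.assoc_hom_app m₁ m₂ m₃ Y.obj).trans ?_
    rw [ObjectProperty.FullSubcategory.comp_hom, ObjectProperty.FullSubcategory.comp_hom,
      hom_eqToHom]
    rfl)
  zero_add_hom_app n Y := P.hom_ext (by
    refine (K.zero_add_hom_app n Y.obj).trans ?_
    rw [ObjectProperty.FullSubcategory.comp_hom, hom_eqToHom]
    rfl)
  add_zero_hom_app n Y := P.hom_ext (by
    refine (K.add_zero_hom_app n Y.obj).trans ?_
    rw [ObjectProperty.FullSubcategory.comp_hom, hom_eqToHom]
    rfl)

end Core

variable {X : Scheme.{u}} {ι : Type u} {U : ι → X.Opens} [IsCov U]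

namespace Coc

theorem isCoh_tw' (g : Coc U) {M : X.Modules} (hM : IsCoh X M) : IsCoh X ((tw g).obj M) :=
  isCoh_tw g IsCov.cov hM

/-- the twist of coherent sheaves by a cocycle of units -/
def twCoh (g : Coc U) : Coh X ⥤ Coh X :=
  (IsCoh X).lift ((IsCoh X).ι ⋙ tw g) (fun A => isCoh_tw' g A.property)

@[simp] theorem twCoh_obj_obj (g : Coc U) (A : Coh X) :
    ((twCoh g).obj A).obj = (tw g).obj A.obj := rfl

@[simp] theorem twCoh_map_hom (g : Coc U) {A B : Coh X} (f : A ⟶ B) :
    ((twCoh g).map f).hom = (tw g).map f.hom := rfl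

/-- product of twists of coherent sheaves -/
def mulCoh {g h k : Coc U} (e : g * h = k) : twCoh h ⋙ twCoh g ≅ twCoh k :=
  NatIso.ofComponents (fun A => (IsCoh X).isoMk ((mulIso e).app A.obj))
    (fun f => (IsCoh X).hom_ext ((mulIso e).hom.naturality f.hom))

/-- the trivial twist of coherent sheaves -/
def oneCoh {g : Coc U} (e : g = 1) : 𝟭 (Coh X) ≅ twCoh g :=
  NatIso.ofComponents (fun A => (IsCoh X).isoMk ((oneIso e).app A.obj))
    (fun f => (IsCoh X).hom_ext ((oneIso e).hom.naturality f.hom))

/-- the twist of coherent sheaves as an autoequivalence -/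
def twCohEquiv (g : Coc U) : Coh X ≌ Coh X :=
  CategoryTheory.Equivalence.mk (twCoh g) (twCoh g⁻¹)
    (oneCoh rfl ≪≫ (mulCoh (inv_mul_cancel g)).symm)
    (mulCoh (mul_inv_cancel g) ≪≫ (oneCoh rfl).symm)

instance (g : Coc U) : (twCoh g).IsEquivalence :=
  inferInstanceAs (twCohEquiv g).functor.IsEquivalence

section

variable [IsLocallyNoetherian X]

instance (g : Coc U) : (twCoh g).Additive where
  map_add {_ _ f f'} := (IsCoh X).hom_ext ((tw g).map_add (f := f.hom) (g := f'.hom))

instance (g : Coc U) : PreservesFiniteLimits (twCoh g) := inferInstance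

instance (g : Coc U) : PreservesFiniteColimits (twCoh g) := inferInstance

omit [IsLocallyNoetherian X] in
/-- twists preserve short exact sequences of coherent sheaves -/
theorem shortExact_twCoh (g : Coc U) {S : ShortComplex (Coh X)} (hS : S.ShortExact) :
    (S.map (twCoh g)).ShortExact :=
  hS.map_of_exact (twCoh g)

end

/-! ### the shift of the category of coherent sheaves by twists -/

section Shift

variable {G : Type*} [AddCommMonoid G] (φ : Multiplicative G →* Coc U)

/-- the shift of the category of coherent sheaves by the twists by a group of cocycles -/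
def shiftCoreCoh : ShiftMkCore (Coh X) G :=
  restrictCore (IsCoh X) (shiftCore φ) (fun a _ hY => isCoh_tw' (at' φ a) hY)

/-- the shift of the category of coherent sheaves by twists; use it as a local instance -/
@[implicit_reducible]
def hasShiftCoh : HasShift (Coh X) G := hasShiftMk _ _ (shiftCoreCoh φ)

theorem shiftFunctorCoh_eq (a : G) :
    @shiftFunctor (Coh X) G _ _ (hasShiftCoh φ) a = twCoh (at' φ a) := rfl

theorem shiftFunctorCohZero_inv_app_hom (M : Coh X) :
    ((@shiftFunctorZero (Coh X) G _ _ (hasShiftCoh φ)).inv.app M).hom =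
      oneHom (at_zero φ) M.obj := rfl

theorem shiftFunctorCohAdd_inv_app_hom (a b : G) (M : Coh X) :
    ((@shiftFunctorAdd (Coh X) G _ _ (hasShiftCoh φ) a b).inv.app M).hom =
      mulHom (at_add φ a b) M.obj := rfl

theorem shiftFunctorCohAdd'_inv_app_hom (a b c : G) (h : a + b = c) (M : Coh X) :
    ((@shiftFunctorAdd' (Coh X) G _ _ (hasShiftCoh φ) a b c h).inv.app M).hom =
      mulHom ((at_add φ a b).trans (congrArg (at' φ) h)) M.obj := by
  subst h
  let := hasShiftCoh φ
  rw [shiftFunctorAdd'_eq_shiftFunctorAdd]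
  exact shiftFunctorCohAdd_inv_app_hom φ a b M

theorem shiftFunctorCohAdd'_hom_app_hom (a b c : G) (h : a + b = c) (M : Coh X) :
    ((@shiftFunctorAdd' (Coh X) G _ _ (hasShiftCoh φ) a b c h).hom.app M).hom =
      mulInv ((at_add φ a b).trans (congrArg (at' φ) h)) M.obj := by
  subst h
  let := hasShiftCoh φ
  rw [shiftFunctorAdd'_eq_shiftFunctorAdd]
  rfl

theorem shiftFunctorCoh_additive [IsLocallyNoetherian X] (a : G) :
    (@shiftFunctor (Coh X) G _ _ (hasShiftCoh φ) a).Additive :=
  inferInstanceAs (twCoh (at' φ a)).Additive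

end Shift

end Coc

end

end Fdim
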