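import Pool.Agent.Work.MP_f714fc_ag.Tw.TwCoh
import Pool.Agent.Work.MP_f714fc_ag.Abs.Host
import Pool.Agent.Work.MP_f714fc_ag.Abs.SerreDef

/-!
# AmpleData of the category of coherent sheaves, for the shift by the powers of a line bundle
-/

open CategoryTheory Limits TopologicalSpace AlgebraicGeometry Opposite

attribute [-instance] CategoryTheory.catToReflQuiver

universe u t

namespace Fdim

noncomputable section

variable {X : Scheme.{u}} {ι : Type u} {U : ι → X.Opens}

namespace Coc

/-- the homomorphism `n ↦ g ^ n` -/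
def powHom (g : Coc U) : Multiplicative ℤ →* Coc U where
  toFun n := g ^ n.toAdd
  map_one' := zpow_zero g
  map_mul' _ _ := zpow_add g _ _

@[simp] theorem at_powHom (g : Coc U) (n : ℤ) : at' (powHom g) n = g ^ n := rfl

/-- the homomorphism `n ↦ g ^ (-n)` -/
def negPowHom (g : Coc U) : Multiplicative ℤ →* Coc U where
  toFun n := g ^ (-n.toAdd)
  map_one' := by
    change g ^ (-(0 : ℤ)) = 1
    simp
  map_mul' a b := by
    change g ^ (-(a.toAdd + b.toAdd)) = _
    rw [neg_add, zpow_add]

@[simp] theorem at_negPowHom (g : Coc U) (n : ℤ) : at' (negPowHom g) n = g ^ (-n) := rfl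

variable [IsCov U]

/-- a morphism `O → O ⊗ L` of coherent sheaves acts on every coherent sheaf -/
def actCoh {g : Coc U} (s : Coh.O X ⟶ (twCoh g).obj (Coh.O X)) (A : Coh X) :
    A ⟶ (twCoh g).obj A :=
  ObjectProperty.homMk (mulSec (secOf (g := g) s.hom) A.obj)

theorem actCoh_hom {g : Coc U} (s : Coh.O X ⟶ (twCoh g).obj (Coh.O X)) (A : Coh X) :
    (actCoh s A).hom = mulSec (secOf (g := g) s.hom) A.obj := rfl

theorem actCoh_O {g : Coc U} (s : Coh.O X ⟶ (twCoh g).obj (Coh.O X)) :
    actCoh s (Coh.O X) = s :=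
  (IsCoh X).hom_ext (mulSec_secOf (g := g) s.hom)

theorem actCoh_naturality {g : Coc U} (s : Coh.O X ⟶ (twCoh g).obj (Coh.O X)) {A B : Coh X}
    (f : A ⟶ B) : f ≫ actCoh s B = actCoh s A ≫ (twCoh g).map f :=
  (IsCoh X).hom_ext (mulSec_naturality _ f.hom)

theorem tev_actCoh {g : Coc U} (s : Coh.O X ⟶ (twCoh g).obj (Coh.O X)) (A : Coh X)
    {V : X.Opens} (m : Γ(A.obj, V)) (i : ι) {W : X.Opens} (hV : W ≤ V) (hi : W ≤ U i) :
    tev (g := g) (M := A.obj) (ap (M := A.obj) (N := (tw g).obj A.obj) (actCoh s A).hom V m) i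
      hV hi = sv (secOf (g := g) s.hom) i le_top hi • rs A.obj hV m :=
  tev_mulSec _ _ _ _ _ _

/-- the compatibility of a linear structure on `Coh X` with the scalars of the sections -/
def IsLin {k : Type t} [Field k] [IsLocallyNoetherian X] [Linear k (Coh X)]
    (c : k → Γ(X, (⊤ : X.Opens))) : Prop :=
  ∀ (a : k) {A B : Coh X} (f : A ⟶ B) (V : X.Opens) (m : Γ(A.obj, V)),
    ap (a • f).hom V m = (rO le_top (c a) : Γ(X, V)) • ap f.hom V m

variable {k : Type t} [Field k] [IsLocallyNoetherian X] [Linear k (Coh X)]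
  {c : k → Γ(X, (⊤ : X.Opens))}

omit [IsLocallyNoetherian X] in
theorem actCoh_add [IsLocallyNoetherian X] {g : Coc U}
    (s t : Coh.O X ⟶ (twCoh g).obj (Coh.O X)) (A : Coh X) :
    actCoh (s + t) A = actCoh s A + actCoh t A :=
  (IsCoh X).hom_ext (mulSec_add _ _ A.obj)

theorem actCoh_smul (hc : IsLin c) {g : Coc U} (a : k)
    (s : Coh.O X ⟶ (twCoh g).obj (Coh.O X)) (A : Coh X) :
    actCoh (a • s) A = a • actCoh s A := by
  apply (IsCoh X).hom_ext
  apply hom_text (g := g) (M := A.obj) (N := A.obj)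
  intro V m i _ hi
  refine (tev_actCoh (a • s) A m i le_rfl hi).trans ?_
  refine Eq.trans ?_ (congrArg (fun x => tev (g := g) (M := A.obj) x i le_rfl hi)
    (hc a (actCoh s A) V m)).symm
  refine Eq.trans ?_ (tev_smul (g := g) (M := A.obj) _ _ i le_rfl hi).symm
  refine Eq.trans ?_ (congrArg (fun x => rO le_rfl (rO le_top (c a)) • x)
    (tev_actCoh s A m i le_rfl hi)).symm
  have h : secOf (g := g) (a • s).hom = c a • secOf (g := g) s.hom := by
    have := hc a s ⊤ (1 : Γ(X, ⊤))
    rw [rO_self] at this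
    exact this
  rw [h, sv_smul, mul_smul, rO_rO]

theorem twCoh_map_smul (hc : IsLin c) (g : Coc U) (a : k) {A B : Coh X} (f : A ⟶ B) :
    (twCoh g).map (a • f) = a • (twCoh g).map f := by
  apply (IsCoh X).hom_ext
  apply hom_text (g := g) (M := B.obj) (N := (tw g).obj A.obj)
  intro V m i _ hi
  refine (tev_map (g := g) (a • f).hom m i le_rfl hi).trans ?_
  refine Eq.trans ?_ (congrArg (fun x => tev (g := g) (M := B.obj) x i le_rfl hi)
    (hc a ((twCoh g).map f) V m)).symm
  refine Eq.trans ?_ (tev_smul (g := g) (M := B.obj) _ _ i le_rfl hi).symm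
  refine Eq.trans ?_ (congrArg (fun x => rO le_rfl (rO le_top (c a)) • x)
    (tev_map (g := g) f.hom m i le_rfl hi)).symm
  rw [rO_rO]
  exact hc a f V _

/-- twists of coherent sheaves are linear -/
theorem twCoh_linear (hc : IsLin c) (g : Coc U) : (twCoh g).Linear k where
  map_smul f a := twCoh_map_smul hc g a f

theorem shiftFunctorCoh_linear (hc : IsLin c) {G : Type*} [AddCommMonoid G]
    (φ : Multiplicative G →* Coc U) (a : G) :
    (@shiftFunctor (Coh X) G _ _ (hasShiftCoh φ) a).Linear k :=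
  twCoh_linear hc (at' φ a)

theorem comp_hom (φ : Multiplicative ℤ →* Coc U) {A B D : Coh X} {a b p : ℤ}
    (f : @ShiftedHom (Coh X) _ ℤ _ (hasShiftCoh φ) A B a)
    (f' : @ShiftedHom (Coh X) _ ℤ _ (hasShiftCoh φ) B D b) (h : b + a = p) :
    (@ShiftedHom.comp (Coh X) _ ℤ _ (hasShiftCoh φ) A B D a b p f f' h).hom =
      InducedCategory.Hom.hom f ≫ (tw (at' φ a)).map (InducedCategory.Hom.hom f') ≫
        mulHom ((at_add φ b a).trans (congrArg (at' φ) h)) D.obj := by
  rw [← shiftFunctorCohAdd'_inv_app_hom φ b a p h D]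
  rfl

/-- the ample data of the category of coherent sheaves, for the shift by twists by the powers of
an ample line bundle -/
def ampleData (φ : Multiplicative ℤ →* Coc U) (hc : IsLin c)
    (hgg : IsAmpleTwist (Coh.O X) fun n : ℤ => twCoh (at' φ n)) :
    letI := hasShiftCoh φ
    haveI : ∀ n : ℤ, (shiftFunctor (Coh X) n).Additive := shiftFunctorCoh_additive φ
    haveI : ∀ n : ℤ, (shiftFunctor (Coh X) n).Linear k := shiftFunctorCoh_linear hc φ
    AmpleData k (Coh X) :=
  letI := hasShiftCoh φ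
  haveI : ∀ n : ℤ, (shiftFunctor (Coh X) n).Additive := shiftFunctorCoh_additive φ
  haveI : ∀ n : ℤ, (shiftFunctor (Coh X) n).Linear k := shiftFunctorCoh_linear hc φ
  { O := Coh.O X
    act := fun n A =>
      { toFun := fun s => actCoh (g := at' φ n) s A
        map_add' := fun s t => actCoh_add (g := at' φ n) s t A
        map_smul' := fun a s => actCoh_smul hc (g := at' φ n) a s A }
    act_O := fun n s => actCoh_O (g := at' φ n) s
    central := fun {A B m n p} f s h h' => (IsCoh X).hom_ext (by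
      refine (comp_hom φ f _ h).trans (Eq.trans ?_ (comp_hom φ _ f h').symm)
      exact mulSec_central (g := at' φ n) (h := at' φ m) (k := at' φ p) _ _ _ _)
    act_comp := fun {m n p} s t h A => (IsCoh X).hom_ext (by
      refine Eq.trans ?_ (comp_hom φ _ _ h).symm
      refine Eq.trans ?_ (secOf_comp (g := at' φ m) (h := at' φ n) (k := at' φ p) _
        (InducedCategory.Hom.hom s) (InducedCategory.Hom.hom t) A.obj)
      exact congrArg (fun x => mulSec (secOf (g := at' φ p) x) A.obj) (comp_hom φ s t h))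
    gg := hgg }

end Coc

end

end Fdim
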