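import Pool.Agent.Work.MP_f714fc_ag.Tw.TwSec
import Pool.Agent.Work.MP_f714fc_ag.Tw.AmpleExt

/-!
# Sections of cocycles: products, sections of the twist of the structure sheaf
-/

open CategoryTheory Limits TopologicalSpace AlgebraicGeometry Opposite

attribute [-instance] CategoryTheory.catToReflQuiver

universe u

namespace Fdim

variable {X : Scheme.{u}} {ι : Type u} {U : ι → X.Opens}

/-- the product of sections -/
noncomputable def Coc.Sct.mul {g h : Coc U} (σ : Sct g) (τ : Sct h) : Sct (g * h) where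
  c i := σ.c i * τ.c i
  comp i j W hi hj := by
    rw [map_mul, map_mul, σ.comp i j W hi hj, τ.comp i j W hi hj, Coc.v_mul]
    ring

/-- C0: the global section of the twist of the structure sheaf given by a family -/
theorem Coc.Sct.exists_sec {g : Coc U} (σ : Sct g) :
    ∃ s : Γ((Coc.tw g).obj (Coc.OO X), (⊤ : X.Opens)), ∀ (i : ι) (W : X.Opens) (hi : W ≤ U i),
      Coc.sv s i le_top hi = rO hi (σ.c i) := by
  refine ⟨Coc.tmk (fun i => (rO (inf_le_right : (⊤ : X.Opens) ⊓ U i ≤ U i) (σ.c i) :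
    Γ(X, ⊤ ⊓ U i))) (fun i j W hV hi hj => ?_), fun i W hi => ?_⟩
  · rw [Coc.rs_OO, Coc.rs_OO, rO_rO, rO_rO]
    exact σ.comp i j W hi hj
  · exact rO_rO (inf_le_right : (⊤ : X.Opens) ⊓ U i ≤ U i) (le_inf le_top hi) (σ.c i)

end Fdim
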