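import Pool.Agent.Work.MP_f714fc_ag.Tw.AmpleExt

/-!
# Generation of large twists by global sections

If finitely many sections of the line bundle `g` have affine loci which cover `X`, then every
quasi-coherent sheaf `M` with finitely generated sections over these loci has the property that
`(tw (g ^ N)).obj M` is generated by finitely many global sections for `N` large.
-/

open CategoryTheory Limits TopologicalSpace AlgebraicGeometry Opposite

attribute [-instance] CategoryTheory.catToReflQuiver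

universe u

namespace Fdim

variable {X : Scheme.{u}} {ι : Type u} {U : ι → X.Opens}

namespace Coc

theorem tev_sub {g : Coc U} {M : X.Modules} {V : X.Opens} (s t : Γ((tw g).obj M, V)) (i : ι)
    {W : X.Opens} (hV : W ≤ V) (hi : W ≤ U i) :
    tev (s - t) i hV hi = tev s i hV hi - tev t i hV hi := by
  rw [sub_eq_add_neg, tev_add, tev_neg, sub_eq_add_neg]

theorem tev_sum {g : Coc U} {M : X.Modules} {V : X.Opens} {κ : Type*} (S : Finset κ)
    (s : κ → Γ((tw g).obj M, V)) (i : ι) {W : X.Opens} (hV : W ≤ V) (hi : W ≤ U i) :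
    tev (∑ l ∈ S, s l) i hV hi = ∑ l ∈ S, tev (s l) i hV hi := by
  classical
  induction S using Finset.induction_on with
  | empty => simp
  | insert a S ha ih => rw [Finset.sum_insert ha, Finset.sum_insert ha, tev_add, ih]

/-- over an open subset of `U i` a section of the twist is determined by its component `i` -/
theorem text_of_le {g : Coc U} {M : X.Modules} {V : X.Opens} (i : ι) (hi : V ≤ U i)
    {s t : Γ((tw g).obj M, V)} (h : tev s i le_rfl hi = tev t i le_rfl hi) : s = t := by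
  apply text
  intro j
  have h1 := congrArg (rs M (inf_le_left : V ⊓ U j ≤ V)) h
  rw [rs_tev, rs_tev] at h1
  rw [tev_eq s j i _ inf_le_right (inf_le_left.trans hi),
    tev_eq t j i _ inf_le_right (inf_le_left.trans hi), h1]

/-- a morphism which kills the extensions of generators over an affine locus vanishes there -/
theorem kill_of_gen (hcov : (⊤ : X.Opens) ≤ ⨆ i, U i) {g : Coc U} (σ : Sct g)
    (haff : IsAffineOpen σ.locus) (M : X.Modules) [M.IsQuasicoherent] {κ : Type*} [Finite κ]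
    (m : κ → Γ(M, σ.locus)) (hm : Submodule.span Γ(X, σ.locus) (Set.range m) = ⊤) (N : ℕ)
    (t : κ → Γ((tw (g ^ N)).obj M, ⊤))
    (ht : ∀ (l : κ) (i : ι) (W : X.Opens) (hi : W ≤ U i) (hW : W ≤ σ.locus),
      tev (t l) i le_top hi = σ.v i hi ^ N • rs M hW (m l))
    {B : X.Modules} (φ : (tw (g ^ N)).obj M ⟶ B) (hφ : ∀ l, ap φ ⊤ (t l) = 0)
    {W : X.Opens} (hW : W ≤ σ.locus) (s : Γ((tw (g ^ N)).obj M, W)) : ap φ W s = 0 := by
  have h1 : ∀ x : W, ∃ (f : Γ(X, σ.locus)) (i : ι), X.basicOpen f ≤ W ∧ X.basicOpen f ≤ U i ∧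
      (x : X) ∈ X.basicOpen f := by
    intro x
    have hx : (x : X) ∈ ⨆ i, U i := hcov trivial
    obtain ⟨i, hi⟩ := Opens.mem_iSup.1 hx
    obtain ⟨f, hf, hxf⟩ := haff.exists_basicOpen_le (V := W ⊓ U i) ⟨x, ⟨x.2, hi⟩⟩ (hW x.2)
    exact ⟨f, i, hf.trans inf_le_left, hf.trans inf_le_right, hxf⟩
  choose f i hfW hfU hxf using h1
  apply sec_ext B (U := fun x : W => X.basicOpen (f x)) (V := W) hfW
    (fun x hx => Opens.mem_iSup.2 ⟨⟨x, hx⟩, hxf ⟨x, hx⟩⟩)
  intro x
  rw [map_zero, ← ap_rs]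
  set D := X.basicOpen (f x) with hD
  have hDL : D ≤ σ.locus := X.basicOpen_le _
  obtain ⟨u, hu⟩ := (σ.isUnit_v (i x) (hfU x) hDL).pow N
  obtain ⟨n, y, hy⟩ := Coh.qc_exists haff M (f x) (((u⁻¹ : (Γ(X, D))ˣ) : Γ(X, D)) •
    tev s (i x) (hfW x) (hfU x))
  have hy' : rs M hDL y = rO hDL (f x) ^ n • (((u⁻¹ : (Γ(X, D))ˣ) : Γ(X, D)) •
    tev s (i x) (hfW x) (hfU x)) := hy
  -- `y` in terms of the generators
  have hmem : y ∈ Submodule.span Γ(X, σ.locus) (Set.range m) := by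
    rw [hm]
    trivial
  have := Fintype.ofFinite κ
  rw [Submodule.mem_span_range_iff_exists_fun] at hmem
  obtain ⟨c, hc⟩ := hmem
  have key : rO hDL (f x) ^ n • rs _ (hfW x) s = ∑ l, rO hDL (c l) • rs _ le_top (t l) := by
    apply text_of_le (i x) (hfU x)
    rw [tev_smul, tev_rs, tev_sum, rO_self]
    have h2 : ∀ l, tev (rO hDL (c l) • rs ((tw (g ^ N)).obj M) (le_top : D ≤ ⊤) (t l)) (i x)
        le_rfl (hfU x) = (u : Γ(X, D)) • rs M hDL (c l • m l) := by
      intro l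
      rw [tev_smul, tev_rs, ht l (i x) D (hfU x) hDL, rO_self, rs_smul, ← hu, smul_comm]
    rw [Finset.sum_congr rfl (fun l _ => h2 l), ← Finset.smul_sum, ← map_sum, hc, hy',
      smul_comm (u : Γ(X, D)) (rO hDL (f x) ^ n), smul_smul (u : Γ(X, D)), Units.mul_inv, one_smul]
  have h3 : rO hDL (f x) ^ n • ap φ D (rs _ (hfW x) s) = 0 := by
    rw [← ap_smul, key, map_sum]
    apply Finset.sum_eq_zero
    intro l _
    rw [ap_smul, ap_rs, hφ, map_zero, smul_zero]
  have h4 : IsUnit (rO hDL (f x)) := RingedSpace.isUnit_res_basicOpen X.toRingedSpace (f x)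
  obtain ⟨v, hv⟩ := h4.pow n
  rw [← hv] at h3
  have h5 := congrArg (fun z => ((v⁻¹ : (Γ(X, D))ˣ) : Γ(X, D)) • z) h3
  simpa [smul_smul] using h5

/-- **Generation by global sections** of large twists. -/
theorem exists_gen [CompactSpace X] [QuasiSeparatedSpace X] (hcov : (⊤ : X.Opens) ≤ ⨆ i, U i)
    {g : Coc U} {α : Type*} [Finite α] (σ : α → Sct g) (haff : ∀ a, IsAffineOpen (σ a).locus)
    (hσ : (⊤ : X.Opens) ≤ ⨆ a, (σ a).locus) (M : X.Modules) [M.IsQuasicoherent]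
    (hfin : ∀ a, Module.Finite Γ(X, (σ a).locus) Γ(M, (σ a).locus)) :
    ∃ N₀ : ℕ, ∀ N ≥ N₀, ∃ (j : ℕ) (t : Fin j → Γ((tw (g ^ N)).obj M, ⊤)),
      ∀ (B : X.Modules) (φ : (tw (g ^ N)).obj M ⟶ B), (∀ l, ap φ ⊤ (t l) = 0) → φ = 0 := by
  have h1 : ∀ a, ∃ (n : ℕ) (m : Fin n → Γ(M, (σ a).locus)),
      Submodule.span Γ(X, (σ a).locus) (Set.range m) = ⊤ := fun a =>
    Module.Finite.exists_fin
  choose n m hm using h1
  have h2 : ∀ (b : Σ a, Fin (n a)), ∃ N₀ : ℕ, ∀ N ≥ N₀, ∃ t : Γ((tw (g ^ N)).obj M, ⊤),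
      ∀ (i : ι) (W : X.Opens) (hi : W ≤ U i) (hW : W ≤ (σ b.1).locus),
        tev t i le_top hi = (σ b.1).v i hi ^ N • rs M hW (m b.1 b.2) := fun b =>
    exists_ext hcov (σ b.1) M (m b.1 b.2)
  choose N₁ hN₁ using h2
  obtain ⟨N₀, hN₀⟩ := exists_bound N₁
  refine ⟨N₀, fun N hN => ?_⟩
  have h3 : ∀ (b : Σ a, Fin (n a)), ∃ t : Γ((tw (g ^ N)).obj M, ⊤),
      ∀ (i : ι) (W : X.Opens) (hi : W ≤ U i) (hW : W ≤ (σ b.1).locus),
        tev t i le_top hi = (σ b.1).v i hi ^ N • rs M hW (m b.1 b.2) := fun b =>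
    hN₁ b N ((hN₀ b).trans hN)
  choose t ht using h3
  obtain ⟨j, ⟨e⟩⟩ := Finite.exists_equiv_fin (Σ a, Fin (n a))
  refine ⟨j, fun l => t (e.symm l), fun B φ hφ => ?_⟩
  have hφ' : ∀ b, ap φ ⊤ (t b) = 0 := fun b => by
    have := hφ (e b)
    dsimp only at this
    rwa [e.symm_apply_apply] at this
  apply hom_ext'
  intro V s
  rw [ap_zero]
  apply sec_ext B (U := fun a => V ⊓ (σ a).locus) (V := V) (fun a => inf_le_left) (by
    rw [← inf_iSup_eq]
    exact le_inf le_rfl (le_top.trans hσ))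
  intro a
  rw [map_zero, ← ap_rs]
  exact kill_of_gen hcov (σ a) (haff a) M (m a) (hm a) N (fun l => t ⟨a, l⟩)
    (fun l i W hi hW => ht ⟨a, l⟩ i W hi hW) φ (fun l => hφ' ⟨a, l⟩) inf_le_right _

end Coc

end Fdim
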