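import Pool.Agent.Work.MP_f714fc_ag.Tw.TwFun

/-!
# Congruent cocycles twist equally
-/

open CategoryTheory Limits TopologicalSpace AlgebraicGeometry Opposite

attribute [-instance] CategoryTheory.catToReflQuiver

universe u

namespace Fdim

variable {X : Scheme.{u}} {ι : Type u} {U : ι → X.Opens}

namespace Coc

/-- the identity on components, as a morphism between the twists by two cocycles whose
difference kills the module -/
noncomputable def congrHom {g h : Coc U} (M : X.Modules)
    (H : ∀ i j (W : X.Opens) (hi : W ≤ U i) (hj : W ≤ U j) (m : Γ(M, W)),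
      g.v i j hi hj • m = h.v i j hi hj • m) : (tw g).obj M ⟶ (tw h).obj M :=
  lift h (fun i W hi => comp g M i W hi) (fun i W hi r s => by simp)
    (fun i W W' hi h s => by simp only [comp_apply, rs_tev, tev_rs])
    (fun i j W hi hj s => by
      simp only [comp_apply]
      rw [tev_eq s i j _ hi hj, H])

@[simp] theorem tev_congrHom {g h : Coc U} (M : X.Modules)
    (H : ∀ i j (W : X.Opens) (hi : W ≤ U i) (hj : W ≤ U j) (m : Γ(M, W)),
      g.v i j hi hj • m = h.v i j hi hj • m) {V : X.Opens} (s : Γ((tw g).obj M, V)) (i : ι)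
    {W : X.Opens} (hV : W ≤ V) (hi : W ≤ U i) :
    tev (ap (congrHom M H) V s) i hV hi = tev s i hV hi := by
  rw [congrHom, tev_lift]
  simp

/-- cocycles whose difference kills `M` give isomorphic twists of `M` -/
noncomputable def congrIso {g h : Coc U} (M : X.Modules)
    (H : ∀ i j (W : X.Opens) (hi : W ≤ U i) (hj : W ≤ U j) (m : Γ(M, W)),
      g.v i j hi hj • m = h.v i j hi hj • m) : (tw g).obj M ≅ (tw h).obj M where
  hom := congrHom M H
  inv := congrHom M (fun i j W hi hj m => (H i j W hi hj m).symm)
  hom_inv_id := hom_ext' (fun V s => text (fun i => by simp))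
  inv_hom_id := hom_ext' (fun V s => text (fun i => by simp))

/-- L1: cocycles whose difference kill M give isomorphic twists of M -/
theorem tw_congr {g h : Coc U} (M : X.Modules)
    (H : ∀ i j (W : X.Opens) (hi : W ≤ U i) (hj : W ≤ U j) (m : Γ(M, W)),
      g.v i j hi hj • m = h.v i j hi hj • m) :
    Nonempty ((Coc.tw g).obj M ≅ (Coc.tw h).obj M) :=
  ⟨congrIso M H⟩

end Coc

end Fdim
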