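import Pool.Agent.Work.MP_f714fc_ag.Tw.Divisor
import Pool.Agent.Work.MP_f714fc_ag.Tw.Congr
import Pool.Agent.Work.MP_f714fc_ag.Tw.TwCoh

/-!
# The divisor sequence and congruent cocycles for coherent sheaves
-/

open CategoryTheory Limits TopologicalSpace AlgebraicGeometry Opposite

attribute [-instance] CategoryTheory.catToReflQuiver

universe u

namespace Fdim

variable {X : Scheme.{u}} {ι : Type u} {U : ι → X.Opens}

namespace Coc

/-- cocycles whose difference kills the coherent sheaf `A` give isomorphic twists of `A` -/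
theorem twCoh_congr [IsCov U] {g h : Coc U} (A : Coh X)
    (H : ∀ i j (W : X.Opens) (hi : W ≤ U i) (hj : W ≤ U j) (m : Γ(A.obj, W)),
      g.v i j hi hj • m = h.v i j hi hj • m) :
    Nonempty ((twCoh g).obj A ≅ (twCoh h).obj A) :=
  ⟨(IsCoh X).isoMk (congrIso A.obj H)⟩

/-- the sequence 0 -> A(-D) -> A -> A|D -> 0 of coherent sheaves -/
theorem divisorCoh [IsCov U] [IsLocallyNoetherian X] {g : Coc U} (s : Sct g) (A : Coh X)
    (H : ∀ i (W : X.Opens) (hi : W ≤ U i) (m : Γ(A.obj, W)), rO hi (s.c i) • m = 0 → m = 0) :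
    ∃ S : ShortComplex (Coh X), S.ShortExact ∧
      Nonempty (S.X₁ ≅ (twCoh (g ^ (-1 : ℤ))).obj A) ∧ Nonempty (S.X₂ ≅ A) ∧
      ∀ i (W : X.Opens) (hi : W ≤ U i) (m : Γ(S.X₃.obj, W)), rO hi (s.c i) • m = 0 := by
  obtain ⟨T, hT, ⟨e₁⟩, ⟨e₂⟩, h3⟩ := divisor (IsCov.cov (U := U)) s A.obj H
  have c₁ : IsCoh X T.X₁ := (IsCoh X).prop_of_iso e₁.symm (isCoh_tw' _ A.property)
  have c₂ : IsCoh X T.X₂ := (IsCoh X).prop_of_iso e₂.symm A.property
  have c₃ : IsCoh X T.X₃ := by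
    have := hT.epi_g
    refine isCoh_of_epi T.g c₂ ?_
    exact isQuasicoherent_of_iso
      ((cokernelIsCokernel T.f).coconePointUniqueUpToIso hT.gIsCokernel)
      (isQuasicoherent_cokernel c₁.1 c₂.1 T.f)
  let S : ShortComplex (Coh X) := ShortComplex.mk (X₁ := ⟨T.X₁, c₁⟩) (X₂ := ⟨T.X₂, c₂⟩)
    (X₃ := ⟨T.X₃, c₃⟩) ⟨T.f⟩ ⟨T.g⟩ ((IsCoh X).hom_ext T.zero)
  refine ⟨S, (Coh.shortExact_iff S).2 hT, ⟨(IsCoh X).isoMk e₁⟩, ⟨(IsCoh X).isoMk e₂⟩, h3⟩

end Coc

/-- on an integral scheme a nonzero function acts injectively on the functions -/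
theorem rO_smul_eq_zero [IsIntegral X] {V W : X.Opens} (h : W ≤ V) {c : Γ(X, V)} (hc : c ≠ 0)
    (m : Γ(Coc.OO X, W)) (hm : rO h c • m = 0) : m = 0 := by
  by_cases hW : Nonempty W
  · have h1 : (rO h c : Γ(X, W)) ≠ 0 := by
      intro h0
      exact hc (AlgebraicGeometry.map_injective_of_isIntegral X (homOfLE h) (h0.trans (map_zero _).symm))
    have h2 : (rO h c : Γ(X, W)) * (show Γ(X, W) from m) = 0 := hm
    exact (mul_eq_zero.1 h2).resolve_left h1
  · have h1 : W = ⊥ := by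
      rw [eq_bot_iff]
      exact fun x hx => (hW ⟨x, hx⟩).elim
    subst h1
    exact Subsingleton.elim (α := Γ(X, ⊥)) _ _

end Fdim
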