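import Pool.Agent.Work.MP_f714fc_ag.Tw.Local
import Pool.Agent.Work.MP_f714fc_ag.Tw.MkB
import Pool.Agent.Work.MP_f714fc_ag.Tw.TwSec
import Pool.Agent.Work.MP_f714fc_ag.Tw.AmpleExt
import Pool.Agent.Work.MP_f714fc_ag.Coh.Local

/-!
# The sequence of a section of a cocycle which acts injectively
-/

open CategoryTheory Limits TopologicalSpace AlgebraicGeometry Opposite

attribute [-instance] CategoryTheory.catToReflQuiver

universe u

namespace Fdim

variable {X : Scheme.{u}} {ι : Type u} {U : ι → X.Opens}

namespace Coc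

/-- the inclusion of `M(-D)` into `M` (with values in the twist by the trivial cocycle) -/
noncomputable def divHom {g : Coc U} (s : Sct g) (M : X.Modules) :
    (tw (g ^ (-1 : ℤ))).obj M ⟶ (tw (1 : Coc U)).obj M :=
  lift 1 (fun i W hi => (smulAddHom Γ(X, W) Γ(M, W) (rO hi (s.c i))).comp
      (comp (g ^ (-1 : ℤ)) M i W hi))
    (fun i W hi r m => by
      simp only [AddMonoidHom.comp_apply, comp_apply, tev_smul, rO_self, smulAddHom_apply]
      rw [smul_comm])
    (fun i W W' hi h m => by
      simp only [AddMonoidHom.comp_apply, comp_apply, smulAddHom_apply, rs_smul, rO_rO, rs_tev,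
        tev_rs])
    (fun i j W hi hj m => by
      simp only [AddMonoidHom.comp_apply, comp_apply, smulAddHom_apply, v_one, one_smul]
      rw [tev_eq m i j _ hi hj, ← mul_smul, s.comp i j W hi hj]
      congr 1
      have h : g.v i j hi hj * (g ^ (-1 : ℤ)).v i j hi hj = 1 := by
        rw [← v_mul, ← zpow_one_add]
        simp
      linear_combination rO hj (s.c j) * h)

theorem tev_divHom {g : Coc U} (s : Sct g) (M : X.Modules) {V : X.Opens}
    (m : Γ((tw (g ^ (-1 : ℤ))).obj M, V)) (i : ι) {W : X.Opens} (hV : W ≤ V) (hi : W ≤ U i) :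
    tev (ap (divHom s M) V m) i hV hi = rO hi (s.c i) • tev m i hV hi := by
  rw [divHom, tev_lift]
  simp

/-- L3: the sequence 0 -> M(-D) -> M -> M|D -> 0 of a section s which acts injectively on M; the
quotient is killed by s -/
theorem divisor {g : Coc U} (hU : ⨆ i, U i = ⊤) (s : Sct g) (M : X.Modules)
    (H : ∀ i (W : X.Opens) (hi : W ≤ U i) (m : Γ(M, W)), rO hi (s.c i) • m = 0 → m = 0) :
    ∃ S : ShortComplex X.Modules, S.ShortExact ∧
      Nonempty (S.X₁ ≅ (Coc.tw (g ^ (-1 : ℤ))).obj M) ∧ Nonempty (S.X₂ ≅ M) ∧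
      ∀ i (W : X.Opens) (hi : W ≤ U i) (m : Γ(S.X₃, W)), rO hi (s.c i) • m = 0 := by
  have : IsCov U := ⟨hU⟩
  have hm : Mono (divHom s M) := by
    apply mono_of_injective
    intro V
    rw [injective_iff_map_eq_zero]
    intro m h
    apply text
    intro i
    have h1 := tev_divHom s M m i (inf_le_left : V ⊓ U i ≤ V) inf_le_right
    rw [h, tev_zero] at h1
    rw [tev_zero]
    exact H i _ _ _ h1.symm
  refine ⟨ShortComplex.mk (divHom s M) (cokernel.π (divHom s M)) (cokernel.condition _),
    ?_, ⟨Iso.refl _⟩, ⟨(oneIsoApp rfl M).symm⟩, ?_⟩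
  · exact { exact := ShortComplex.exact_cokernel (divHom s M)
            mono_f := hm
            epi_g := inferInstance }
  · intro i W hi m
    have h1 : ∀ x : W, ∃ (V : X.Opens) (hV : V ≤ W), (x : X) ∈ V ∧ rs _ hV (rO hi (s.c i) • m) = 0 := by
      intro x
      obtain ⟨V, j, hx, t, ht⟩ := Coh.exists_local_lift (cokernel.π (divHom s M)) m x.2
      refine ⟨V, leOfHom j, hx, ?_⟩
      have h2 : rs _ (leOfHom j) m = ap (cokernel.π (divHom s M)) V t := ht.symm
      have h3 : rO (leOfHom j) (rO hi (s.c i)) • t =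
          ap (divHom s M) V (tinv (g ^ (-1 : ℤ)) M i ((leOfHom j).trans hi)
            (tev t i le_rfl ((leOfHom j).trans hi))) := by
        apply text
        intro k
        rw [tev_divHom, tev_tinv, tev_smul, rs_tev, rO_rO, rO_rO,
          tev_eq t k i inf_le_left inf_le_right (inf_le_left.trans ((leOfHom j).trans hi)),
          s.comp k i _ inf_le_right (inf_le_left.trans ((leOfHom j).trans hi)), v_one, one_smul,
          ← mul_smul]
        congr 1
        have h : g.v k i inf_le_right (inf_le_left.trans ((leOfHom j).trans hi)) *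
            (g ^ (-1 : ℤ)).v k i (inf_le_right : V ⊓ U k ≤ U k)
              (inf_le_left.trans ((leOfHom j).trans hi)) = 1 := by
          rw [← v_mul, ← zpow_one_add]
          simp
        linear_combination (-1) * rO (inf_le_left.trans ((leOfHom j).trans hi)) (s.c i) * h
      change rs (cokernel (divHom s M)) _ _ = 0
      rw [rs_smul, h2, ← ap_smul, h3, ← ap_comp, cokernel.condition, ap_zero]
    choose V hV hx h0 using h1
    apply sec_ext _ hV (fun x hx' => Opens.mem_iSup.2 ⟨⟨x, hx'⟩, hx _⟩)
    intro x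
    rw [h0, map_zero]

end Coc

end Fdim
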