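import Pool.Agent.Work.MP_f714fc_ag.Tw.Local
import Pool.Agent.Work.MP_f714fc_ag.Tw.TwSec

/-!
# The twist is the tensor product with a line bundle
-/

open CategoryTheory Limits TopologicalSpace AlgebraicGeometry Opposite
open scoped TensorProduct

attribute [-instance] CategoryTheory.catToReflQuiver

universe u

namespace Fdim

noncomputable section

variable {X : Scheme.{u}}

/-- the presheaf `V ↦ Γ(M, V) ⊗ Γ(N, V)` -/
def preTensor (M N : X.Modules) : PresheafOfModules X.ringCatSheaf.obj :=
  PresheafOfModules.Monoidal.tensorObj (R := X.presheaf) M.val N.val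

/-- the sheaf of modules associated with a presheaf of modules -/
def sheafify (P : PresheafOfModules X.ringCatSheaf.obj) : X.Modules :=
  (PresheafOfModules.sheafification (𝟙 X.ringCatSheaf.obj)).obj P

/-- the tensor product of sheaves of modules: the sheaf associated with the presheaf
`V ↦ Γ(M, V) ⊗ Γ(N, V)` -/
def tensor (M N : X.Modules) : X.Modules := sheafify (preTensor M N)

theorem isIso_sheafHom {P : PresheafOfModules X.ringCatSheaf.obj}
    {F : SheafOfModules.{u} X.ringCatSheaf} (β : P ⟶ F.val)
    (h : ∀ (V : X.Opens) (x : X), x ∈ V → ∃ W : X.Opens, x ∈ W ∧ W ≤ V ∧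
      Function.Bijective (β.app (op W)).hom) :
    IsIso ((PresheafOfModules.sheafificationHomEquiv (𝟙 X.ringCatSheaf.obj)
      (P := P) (F := F)).symm β) := by
  have hW : (Opens.grothendieckTopology X).W ((PresheafOfModules.toPresheaf _).map β) := by
    rw [GrothendieckTopology.W_iff_isLocallyBijective]
    constructor
    · constructor
      intro V a b hab x hx
      obtain ⟨W, hxW, hWV, hb⟩ := h V.unop x hx
      refine ⟨W, homOfLE hWV, ?_, hxW⟩
      apply hb.1
      have h1 := congrArg (F.val.presheaf.map (homOfLE hWV).op) hab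
      have h2 : ∀ a, (F.val.presheaf.map (homOfLE hWV).op)
          ((((PresheafOfModules.toPresheaf _).map β).app V) a) =
        (((PresheafOfModules.toPresheaf _).map β).app (op W)) (P.presheaf.map (homOfLE hWV).op a) :=
        fun a => (congr($(((PresheafOfModules.toPresheaf _).map β).naturality
          (homOfLE hWV).op) a)).symm
      rw [h2, h2] at h1
      exact h1
    · constructor
      intro V s x hx
      obtain ⟨W, hxW, hWV, hb⟩ := h V x hx
      refine ⟨W, homOfLE hWV, ?_, hxW⟩
      obtain ⟨t, ht⟩ := hb.2 (F.val.presheaf.map (homOfLE hWV).op s)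
      exact ⟨t, ht⟩
  rw [GrothendieckTopology.W_iff] at hW
  have h1 := PresheafOfModules.toSheaf_map_sheafificationHomEquiv_symm
    (𝟙 X.ringCatSheaf.obj) (F := F) β
  have h2 : IsIso ((SheafOfModules.toSheaf X.ringCatSheaf).map
      ((PresheafOfModules.sheafificationHomEquiv (𝟙 X.ringCatSheaf.obj)).symm β)) := by
    rw [h1, Adjunction.homEquiv_counit]
    have hc : IsIso ((sheafificationAdjunction (Opens.grothendieckTopology X)
      AddCommGrpCat.{u}).counit.app ((SheafOfModules.toSheaf X.ringCatSheaf).obj F)) :=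
      inferInstance
    exact @IsIso.comp_isIso _ _ _ _ _ _ _ hW hc
  exact isIso_of_reflects_iso _ (SheafOfModules.toSheaf X.ringCatSheaf)

/-- the morphism from the associated sheaf -/
def fromSheafify {P : PresheafOfModules X.ringCatSheaf.obj} {F : X.Modules} (β : P ⟶ F.val) :
    sheafify P ⟶ F :=
  (PresheafOfModules.sheafificationHomEquiv (𝟙 X.ringCatSheaf.obj) (P := P) (F := F)).symm β

theorem isIso_fromSheafify {P : PresheafOfModules X.ringCatSheaf.obj} {F : X.Modules}
    (β : P ⟶ F.val)
    (h : ∀ (V : X.Opens) (x : X), x ∈ V → ∃ W : X.Opens, x ∈ W ∧ W ≤ V ∧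
      Function.Bijective (β.app (op W)).hom) : IsIso (fromSheafify β) :=
  isIso_sheafHom (F := F) β h

/-! ### the tensor product with a twist of the structure sheaf -/

namespace Coc

variable {ι : Type u} {U : ι → X.Opens} (g : Coc U) (M : X.Modules)

variable {g M} in
/-- the product of a section of `M` and of a section of the line bundle -/
def mulS {V : X.Opens} (m : Γ(M, V)) (σ : Γ((tw g).obj (OO X), V)) : Γ((tw g).obj M, V) :=
  tmk (fun i => sv σ i inf_le_left inf_le_right • rs M inf_le_left m) (by
    intro i j W hV hi hj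
    simp only [rs_smul, rO_sv, rs_rs]
    rw [sv_eq σ i j hV hi hj, mul_smul])

variable {g M} in
theorem tev_mulS {V : X.Opens} (m : Γ(M, V)) (σ : Γ((tw g).obj (OO X), V)) (i : ι)
    {W : X.Opens} (hV : W ≤ V) (hi : W ≤ U i) :
    tev (mulS m σ) i hV hi = sv σ i hV hi • rs M hV m := by
  rw [mulS, tev_tmk, rs_smul, rO_sv, rs_rs]

/-- the product as a linear map on the tensor product -/
def betaL (V : X.Opens) :
    TensorProduct Γ(X, V) Γ(M, V) Γ((tw g).obj (OO X), V) →ₗ[Γ(X, V)] Γ((tw g).obj M, V) :=
  TensorProduct.lift (LinearMap.mk₂ Γ(X, V) (fun m σ => mulS m σ)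
    (fun m m' σ => text (fun i => by simp [tev_mulS]))
    (fun r m σ => text (fun i => by
      simp only [tev_mulS, tev_smul, rs_smul]
      rw [smul_comm]))
    (fun m σ τ => text (fun i => by simp [tev_mulS, add_smul]))
    (fun r m σ => text (fun i => by
      simp only [tev_mulS, tev_smul, sv_smul, mul_smul])))

@[simp] theorem betaL_tmul {V : X.Opens} (m : Γ(M, V)) (σ : Γ((tw g).obj (OO X), V)) :
    betaL g M V (m ⊗ₜ σ) = mulS m σ := rfl

theorem rs_mulS {V V' : X.Opens} (h : V' ≤ V) (m : Γ(M, V))
    (σ : Γ((tw g).obj (OO X), V)) :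
    rs _ h (mulS m σ) = mulS (rs M h m) (rs ((tw g).obj (OO X)) h σ) :=
  text (fun i => by simp [tev_mulS])

/-- the restriction maps of the presheaf tensor product -/
def preRes {V V' : X.Opens} (h : V' ≤ V) :
    TensorProduct Γ(X, V) Γ(M, V) Γ((tw g).obj (OO X), V) →+
      TensorProduct Γ(X, V') Γ(M, V') Γ((tw g).obj (OO X), V') :=
  ((preTensor M ((tw g).obj (OO X))).presheaf.map (homOfLE h).op).hom

theorem preRes_tmul {V V' : X.Opens} (h : V' ≤ V) (m : Γ(M, V)) (σ : Γ((tw g).obj (OO X), V)) :
    preRes g M h (m ⊗ₜ σ) = rs M h m ⊗ₜ rs ((tw g).obj (OO X)) h σ := rfl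

theorem betaL_preRes {V V' : X.Opens} (h : V' ≤ V)
    (s : TensorProduct Γ(X, V) Γ(M, V) Γ((tw g).obj (OO X), V)) :
    betaL g M V' (preRes g M h s) = rs _ h (betaL g M V s) := by
  induction s using TensorProduct.induction_on with
  | zero => simp only [map_zero]
  | tmul m σ => rw [preRes_tmul, betaL_tmul, betaL_tmul, rs_mulS]
  | add s t hs ht => rw [map_add, map_add, map_add, map_add, hs, ht]

/-- the product as a morphism of presheaves of modules -/
def beta : preTensor M ((tw g).obj (OO X)) ⟶ ((tw g).obj M).val :=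
  PresheafOfModules.homMk
    { app := fun V => AddCommGrpCat.ofHom (betaL g M V.unop).toAddMonoidHom
      naturality := fun V V' f => by
        ext s
        exact betaL_preRes g M (leOfHom f.unop) s }
    (fun V r s => (betaL g M V.unop).map_smul r s)

theorem betaL_bijective (i : ι) {V : X.Opens} (hi : V ≤ U i) :
    Function.Bijective (betaL g M V) := by
  let e : TensorProduct Γ(X, V) Γ(M, V) Γ((tw g).obj (OO X), V) ≃ₗ[Γ(X, V)] Γ(M, V) :=
    TensorProduct.congr (LinearEquiv.refl _ _)
      ((tevL g (OO X) i hi).trans (LinearEquiv.refl Γ(X, V) Γ(X, V))) ≪≫ₗ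
      TensorProduct.rid Γ(X, V) Γ(M, V)
  have h : (tevL g M i hi).toLinearMap ∘ₗ betaL g M V = e.toLinearMap := by
    ext m σ
    change tev (mulS m σ) i le_rfl hi = sv σ i le_rfl hi • m
    rw [tev_mulS, rs_self]
  have h2 : ⇑(betaL g M V) = ⇑(tevL g M i hi).symm ∘ ⇑e := by
    funext s
    have h3 := congr($h s)
    change tevL g M i hi (betaL g M V s) = e s at h3
    change betaL g M V s = (tevL g M i hi).symm (e s)
    rw [← h3, LinearEquiv.symm_apply_apply]
  rw [h2]
  exact (tevL g M i hi).symm.bijective.comp e.bijective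

/-- the morphism from the tensor product to the twist -/
def tensorHom : tensor M ((tw g).obj (OO X)) ⟶ (tw g).obj M := fromSheafify (beta g M)

theorem isIso_tensorHom [IsCov U] : IsIso (tensorHom g M) :=
  isIso_fromSheafify (beta g M) (fun V x hx => by
    obtain ⟨i, hi⟩ : ∃ i, x ∈ U i := by
      have hx : x ∈ (⊤ : X.Opens) := trivial
      rw [← IsCov.cov (U := U)] at hx
      exact Opens.mem_iSup.1 hx
    exact ⟨V ⊓ U i, ⟨hx, hi⟩, inf_le_left, betaL_bijective g M i inf_le_right⟩)

/-- The twist by a cocycle `g` is the tensor product with the line bundle of `g`, the twist of the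
structure sheaf. -/
def tensorIso [IsCov U] : tensor M ((tw g).obj (OO X)) ≅ (tw g).obj M :=
  haveI := isIso_tensorHom g M
  asIso (tensorHom g M)

end Coc

end

end Fdim
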