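import Pool.Agent.Work.MP_f714fc_ag.Tw.Tensor

/-!
# The twist is the functor of tensor product with a line bundle
-/

open CategoryTheory Limits TopologicalSpace AlgebraicGeometry Opposite
open scoped TensorProduct

attribute [-instance] CategoryTheory.catToReflQuiver

universe u

namespace Fdim

noncomputable section

variable {X : Scheme.{u}}

/-- the presheaf tensor product is functorial in the first variable -/
def preTensorMap {M M' : X.Modules} (φ : M ⟶ M') (N : X.Modules) :
    preTensor M N ⟶ preTensor M' N :=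
  PresheafOfModules.Monoidal.tensorHom (R := X.presheaf) φ.val (𝟙 N.val)

theorem preTensorMap_id (M N : X.Modules) : preTensorMap (𝟙 M) N = 𝟙 _ :=
  MonoidalCategory.id_tensorHom_id (C := PresheafOfModules.{u} (X.presheaf ⋙ forget₂ _ _))
    M.val N.val

theorem preTensorMap_comp {M M' M'' : X.Modules} (φ : M ⟶ M') (ψ : M' ⟶ M'') (N : X.Modules) :
    preTensorMap (φ ≫ ψ) N = preTensorMap φ N ≫ preTensorMap ψ N :=
  MonoidalCategory.comp_whiskerRight (C := PresheafOfModules.{u} (X.presheaf ⋙ forget₂ _ _))
    φ.val ψ.val N.val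

/-- the tensor product with a sheaf of modules, as a functor -/
def tensorFunctor (N : X.Modules) : X.Modules ⥤ X.Modules where
  obj M := tensor M N
  map φ := (PresheafOfModules.sheafification (𝟙 X.ringCatSheaf.obj)).map (preTensorMap φ N)
  map_id M := by
    rw [preTensorMap_id]
    exact (PresheafOfModules.sheafification (𝟙 X.ringCatSheaf.obj)).map_id _
  map_comp φ ψ := by
    rw [preTensorMap_comp]
    exact (PresheafOfModules.sheafification (𝟙 X.ringCatSheaf.obj)).map_comp _ _

theorem fromSheafify_eq {P : PresheafOfModules X.ringCatSheaf.obj} {F : X.Modules}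
    (β : P ⟶ F.val) : fromSheafify β =
      ((PresheafOfModules.sheafificationAdjunction (𝟙 X.ringCatSheaf.obj)).homEquiv P F).symm
        β := by
  apply ((PresheafOfModules.sheafificationAdjunction
    (𝟙 X.ringCatSheaf.obj)).homEquiv P F).injective
  rw [Equiv.apply_symm_apply]
  exact (PresheafOfModules.sheafificationHomEquiv (𝟙 X.ringCatSheaf.obj)
    (P := P) (F := F)).apply_symm_apply β

theorem sheafification_map_fromSheafify {P P' : PresheafOfModules X.ringCatSheaf.obj}
    {F : X.Modules} (f : P ⟶ P') (β : P' ⟶ F.val) :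
    ((PresheafOfModules.sheafification (𝟙 X.ringCatSheaf.obj)).map f ≫
      (fromSheafify β : (PresheafOfModules.sheafification (𝟙 X.ringCatSheaf.obj)).obj P' ⟶ F)) =
      fromSheafify (f ≫ β) := by
  rw [fromSheafify_eq, fromSheafify_eq]
  exact ((PresheafOfModules.sheafificationAdjunction
    (𝟙 X.ringCatSheaf.obj)).homEquiv_naturality_left_symm (Y := F) f β).symm

theorem fromSheafify_comp {P : PresheafOfModules X.ringCatSheaf.obj}
    {F F' : X.Modules} (β : P ⟶ F.val) (φ : F ⟶ F') :
    fromSheafify β ≫ φ = fromSheafify (β ≫ φ.val) := by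
  rw [fromSheafify_eq, fromSheafify_eq]
  exact ((PresheafOfModules.sheafificationAdjunction
    (𝟙 X.ringCatSheaf.obj)).homEquiv_naturality_right_symm (X := P) (Y := F) (Y' := F') β φ).symm

namespace Coc

variable {ι : Type u} {U : ι → X.Opens} (g : Coc U)

theorem ap_mulS {M M' : X.Modules} (φ : M ⟶ M') {V : X.Opens} (m : Γ(M, V))
    (σ : Γ((tw g).obj (OO X), V)) :
    ap ((tw g).map φ) V (mulS m σ) = mulS (ap φ V m) σ :=
  text (fun i => by simp [tev_mulS, ap_rs])

/-- the map on sections of the presheaf tensor product -/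
def preAp {M M' : X.Modules} (φ : M ⟶ M') (V : X.Opens) :
    TensorProduct Γ(X, V) Γ(M, V) Γ((tw g).obj (OO X), V) →+
      TensorProduct Γ(X, V) Γ(M', V) Γ((tw g).obj (OO X), V) :=
  ((preTensorMap φ ((tw g).obj (OO X))).app (op V)).hom.toAddMonoidHom

theorem preAp_tmul {M M' : X.Modules} (φ : M ⟶ M') (V : X.Opens) (m : Γ(M, V))
    (σ : Γ((tw g).obj (OO X), V)) : preAp g φ V (m ⊗ₜ σ) = ap φ V m ⊗ₜ σ := rfl

theorem betaL_preAp {M M' : X.Modules} (φ : M ⟶ M') (V : X.Opens)
    (s : TensorProduct Γ(X, V) Γ(M, V) Γ((tw g).obj (OO X), V)) :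
    betaL g M' V (preAp g φ V s) = ap ((tw g).map φ) V (betaL g M V s) := by
  induction s using TensorProduct.induction_on with
  | zero => simp only [map_zero]
  | tmul m σ => rw [preAp_tmul, betaL_tmul, betaL_tmul, ap_mulS]
  | add s t hs ht => rw [map_add, map_add, map_add, map_add, hs, ht]

theorem beta_naturality {M M' : X.Modules} (φ : M ⟶ M') :
    preTensorMap φ ((tw g).obj (OO X)) ≫ beta g M' = beta g M ≫ ((tw g).map φ).val := by
  apply PresheafOfModules.hom_ext
  intro V
  ext s
  exact betaL_preAp g φ V.unop s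

/-- The twist by a cocycle `g` is the functor `M ↦ M ⊗ L`, `L` the line bundle of `g`. -/
def tensorFunctorIso [IsCov U] : tensorFunctor ((tw g).obj (OO X)) ≅ tw g :=
  NatIso.ofComponents (fun M => tensorIso g M) (fun {M M'} φ => by
    change (PresheafOfModules.sheafification (𝟙 X.ringCatSheaf.obj)).map
      (preTensorMap φ ((tw g).obj (OO X))) ≫ fromSheafify (beta g M') =
        fromSheafify (beta g M) ≫ (tw g).map φ
    rw [fromSheafify_comp, ← beta_naturality]
    exact sheafification_map_fromSheafify _ _)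

end Coc

end

end Fdim
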