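import Pool.Agent.Work.MP_f714fc_ag.Tw.Mk

/-!
# The twist of sheaves of modules by a cocycle of units

`Coc U` is the commutative group of cocycles of units with respect to an open cover `U`,
`Coc.tw g : X.Modules ⥤ X.Modules` is the twist:
sections of `tw g M` over `V` are the families `m i ∈ Γ(M, V ⊓ U i)` with
`m i = g i j • m j` on `V ⊓ (U i ⊓ U j)`.
-/

open CategoryTheory Limits TopologicalSpace AlgebraicGeometry Opposite

attribute [-instance] CategoryTheory.catToReflQuiver

universe u

namespace Fdim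

variable {X : Scheme.{u}} {ι : Type u} (U : ι → X.Opens)

/-- the group of cocycles of units with respect to the family `U` of open subsets -/
def cocSub : Subgroup (∀ i j : ι, (Γ(X, U i ⊓ U j))ˣ) where
  carrier := {g | ∀ i j k : ι,
    rO (inf_le_left : U i ⊓ U j ⊓ U k ≤ U i ⊓ U j) (g i j : Γ(X, U i ⊓ U j)) *
      rO (inf_le_inf_right (U k) inf_le_right : U i ⊓ U j ⊓ U k ≤ U j ⊓ U k)
        (g j k : Γ(X, U j ⊓ U k)) =
      rO (inf_le_inf_right (U k) inf_le_left : U i ⊓ U j ⊓ U k ≤ U i ⊓ U k)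
        (g i k : Γ(X, U i ⊓ U k))}
  one_mem' := by
    intro i j k
    simp
  mul_mem' := by
    intro g h hg hh i j k
    have h1 := hg i j k
    have h2 := hh i j k
    simp only [Pi.mul_apply, Units.val_mul, map_mul]
    rw [← h1, ← h2]
    ring
  inv_mem' := by
    intro g hg i j k
    have h1 := hg i j k
    have e1 := congrArg (fun x => rO (inf_le_left : U i ⊓ U j ⊓ U k ≤ U i ⊓ U j) x)
      (Units.inv_mul (g i j))
    have e2 := congrArg (fun x => rO (inf_le_inf_right (U k) inf_le_right :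
      U i ⊓ U j ⊓ U k ≤ U j ⊓ U k) x) (Units.inv_mul (g j k))
    have e3 := congrArg (fun x => rO (inf_le_inf_right (U k) inf_le_left :
      U i ⊓ U j ⊓ U k ≤ U i ⊓ U k) x) (Units.inv_mul (g i k))
    simp only [map_mul, map_one] at e1 e2 e3
    simp only [Pi.inv_apply]
    generalize rO _ (((g i j)⁻¹ : (Γ(X, U i ⊓ U j))ˣ) : Γ(X, U i ⊓ U j)) = a' at *
    generalize rO _ (((g j k)⁻¹ : (Γ(X, U j ⊓ U k))ˣ) : Γ(X, U j ⊓ U k)) = b' at *
    generalize rO _ (((g i k)⁻¹ : (Γ(X, U i ⊓ U k))ˣ) : Γ(X, U i ⊓ U k)) = c' at *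
    rw [← h1] at e3
    linear_combination (a' * b') * (-e3) + c' * b' * (rO _ (g j k : Γ(X, U j ⊓ U k))) * e1
      + c' * e2

/-- the commutative group of cocycles of units with respect to the family `U` of open subsets -/
def Coc : Type u := cocSub U

noncomputable instance : CommGroup (Coc U) := inferInstanceAs (CommGroup (cocSub U))

variable {U}

namespace Coc

/-- the value of a cocycle on a smaller open subset -/
noncomputable def v (g : Coc U) (i j : ι) {W : X.Opens} (hi : W ≤ U i) (hj : W ≤ U j) : Γ(X, W) :=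
  rO (le_inf hi hj) (g.1 i j : Γ(X, U i ⊓ U j))

@[simp] theorem rO_v (g : Coc U) (i j : ι) {W W' : X.Opens} (hi : W ≤ U i) (hj : W ≤ U j)
    (h : W' ≤ W) : rO h (g.v i j hi hj) = g.v i j (h.trans hi) (h.trans hj) := by
  simp [v]

@[simp] theorem v_one (i j : ι) {W : X.Opens} (hi : W ≤ U i) (hj : W ≤ U j) :
    (1 : Coc U).v i j hi hj = 1 :=
  map_one (rO (le_inf hi hj))

@[simp] theorem v_mul (g h : Coc U) (i j : ι) {W : X.Opens} (hi : W ≤ U i) (hj : W ≤ U j) :
    (g * h).v i j hi hj = g.v i j hi hj * h.v i j hi hj :=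
  map_mul (rO (le_inf hi hj)) _ _

theorem v_v (g : Coc U) (i j k : ι) {W : X.Opens} (hi : W ≤ U i) (hj : W ≤ U j) (hk : W ≤ U k) :
    g.v i j hi hj * g.v j k hj hk = g.v i k hi hk := by
  have h := congrArg (fun x => rO (le_inf (le_inf hi hj) hk) x) (g.2 i j k)
  simp only [map_mul, rO_rO] at h
  exact h

theorem v_inv_mul (g : Coc U) (i j : ι) {W : X.Opens} (hi : W ≤ U i) (hj : W ≤ U j) :
    (g⁻¹).v i j hi hj * g.v i j hi hj = 1 := by
  rw [← v_mul, inv_mul_cancel, v_one]

@[simp] theorem v_self (g : Coc U) (i : ι) {W : X.Opens} (hi : W ≤ U i) (hi' : W ≤ U i) :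
    g.v i i hi hi' = 1 := by
  have h := g.v_v i i i hi hi hi
  have h2 := g.v_inv_mul i i hi hi
  linear_combination g⁻¹.v i i hi hi * h - (g.v i i hi hi - 1) * h2

theorem v_swap (g : Coc U) (i j : ι) {W : X.Opens} (hi : W ≤ U i) (hj : W ≤ U j) :
    g.v i j hi hj * g.v j i hj hi = 1 := by
  rw [v_v, v_self]

variable (g : Coc U) (M : X.Modules)

/-- sections of the twist -/
structure S (V : X.Opens) : Type u where
  /-- the components -/
  c : ∀ i, Γ(M, V ⊓ U i)
  comp : ∀ i j, rs M (inf_le_inf_left V inf_le_left : V ⊓ (U i ⊓ U j) ≤ V ⊓ U i) (c i) =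
      g.v i j (inf_le_right.trans inf_le_left : V ⊓ (U i ⊓ U j) ≤ U i)
        (inf_le_right.trans inf_le_right : V ⊓ (U i ⊓ U j) ≤ U j) •
      rs M (inf_le_inf_left V inf_le_right : V ⊓ (U i ⊓ U j) ≤ V ⊓ U j) (c j)

variable {g M}

namespace S

/-- the value of a section of the twist with index `i` on a smaller open subset -/
noncomputable def ev {V : X.Opens} (s : S g M V) (i : ι) {W : X.Opens} (hV : W ≤ V)
    (hi : W ≤ U i) : Γ(M, W) :=
  rs M (le_inf hV hi) (s.c i)

@[simp] theorem rs_ev {V : X.Opens} (s : S g M V) (i : ι) {W W' : X.Opens} (hV : W ≤ V)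
    (hi : W ≤ U i) (h : W' ≤ W) : rs M h (s.ev i hV hi) = s.ev i (h.trans hV) (h.trans hi) := by
  simp [ev]

theorem ev_eq {V : X.Opens} (s : S g M V) (i j : ι) {W : X.Opens} (hV : W ≤ V)
    (hi : W ≤ U i) (hj : W ≤ U j) : s.ev i hV hi = g.v i j hi hj • s.ev j hV hj := by
  have h := congrArg (fun x => rs M (le_inf hV (le_inf hi hj)) x) (s.comp i j)
  simp only [rs_rs, rs_smul, rO_v] at h
  exact h

theorem ev_self {V : X.Opens} (s : S g M V) (i : ι) :
    s.ev i (inf_le_left : V ⊓ U i ≤ V) inf_le_right = s.c i := by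
  simp [ev]

theorem ext' {V : X.Opens} {s t : S g M V}
    (h : ∀ i, s.ev i (inf_le_left : V ⊓ U i ≤ V) inf_le_right =
      t.ev i (inf_le_left : V ⊓ U i ≤ V) inf_le_right) : s = t := by
  have h2 : s.c = t.c := by
    funext i
    rw [← ev_self s i, ← ev_self t i]
    exact h i
  cases s
  cases t
  cases h2
  rfl

/-- constructor of sections of the twist -/
noncomputable def mk' {V : X.Opens} (m : ∀ i, Γ(M, V ⊓ U i))
    (h : ∀ i j, ∀ W : X.Opens, ∀ (hV : W ≤ V) (hi : W ≤ U i) (hj : W ≤ U j),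
      rs M (le_inf hV hi) (m i) = g.v i j hi hj • rs M (le_inf hV hj) (m j)) : S g M V :=
  ⟨m, fun i j => h i j _ inf_le_left (inf_le_right.trans inf_le_left)
    (inf_le_right.trans inf_le_right)⟩

@[simp] theorem ev_mk' {V : X.Opens} (m : ∀ i, Γ(M, V ⊓ U i))
    (h : ∀ i j, ∀ W : X.Opens, ∀ (hV : W ≤ V) (hi : W ≤ U i) (hj : W ≤ U j),
      rs M (le_inf hV hi) (m i) = g.v i j hi hj • rs M (le_inf hV hj) (m j)) (i : ι)
    {W : X.Opens} (hV : W ≤ V) (hi : W ≤ U i) :
    (mk' m h : S g M V).ev i hV hi = rs M (le_inf hV hi) (m i) := rfl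

noncomputable instance (V : X.Opens) : Zero (S g M V) where
  zero := mk' (fun _ => 0) (by intros; simp)

noncomputable instance (V : X.Opens) : Add (S g M V) where
  add s t := mk' (fun i => s.ev i inf_le_left inf_le_right + t.ev i inf_le_left inf_le_right) (by
    intro i j W hV hi hj
    simp only [map_add, rs_ev, smul_add]
    rw [s.ev_eq i j hV hi hj, t.ev_eq i j hV hi hj])

noncomputable instance (V : X.Opens) : Neg (S g M V) where
  neg s := mk' (fun i => - s.ev i inf_le_left inf_le_right) (by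
    intro i j W hV hi hj
    simp only [map_neg, rs_ev, smul_neg]
    rw [s.ev_eq i j hV hi hj])

@[simp] theorem ev_add {V : X.Opens} (s t : S g M V) (i : ι) {W : X.Opens} (hV : W ≤ V)
    (hi : W ≤ U i) : (s + t).ev i hV hi = s.ev i hV hi + t.ev i hV hi := by
  change rs M _ (_ + _) = _
  rw [map_add, rs_ev, rs_ev]

@[simp] theorem ev_zero {V : X.Opens} (i : ι) {W : X.Opens} (hV : W ≤ V)
    (hi : W ≤ U i) : (0 : S g M V).ev i hV hi = 0 :=
  map_zero (rs M (le_inf hV hi))

@[simp] theorem ev_neg {V : X.Opens} (s : S g M V) (i : ι) {W : X.Opens} (hV : W ≤ V)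
    (hi : W ≤ U i) : (-s).ev i hV hi = - s.ev i hV hi := by
  change rs M _ (-_) = _
  rw [map_neg, rs_ev]

noncomputable instance (V : X.Opens) : AddCommGroup (S g M V) :=
  { AddGroup.ofLeftAxioms
      (fun a b c : S g M V => ext' (fun i => by simp only [ev_add]; abel))
      (fun a => ext' (fun i => by simp only [ev_add, ev_zero]; abel))
      (fun a => ext' (fun i => by simp only [ev_add, ev_zero, ev_neg]; abel)) with
    add_comm := fun a b => ext' (fun i => by simp only [ev_add]; abel) }

noncomputable instance (V : X.Opens) : SMul Γ(X, V) (S g M V) where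
  smul r s := mk' (fun i => rO (inf_le_left : V ⊓ U i ≤ V) r •
      s.ev i inf_le_left inf_le_right) (by
    intro i j W hV hi hj
    simp only [rs_smul, rO_rO, rs_ev]
    rw [smul_comm, ← s.ev_eq i j hV hi hj])

@[simp] theorem ev_smul {V : X.Opens} (r : Γ(X, V)) (s : S g M V) (i : ι) {W : X.Opens}
    (hV : W ≤ V) (hi : W ≤ U i) : (r • s).ev i hV hi = rO hV r • s.ev i hV hi := by
  change rs M _ (rO inf_le_left r • s.ev i _ _) = _
  rw [rs_smul, rO_rO, rs_ev]

noncomputable instance (V : X.Opens) : Module Γ(X, V) (S g M V) where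
  one_smul s := ext' (fun i => by simp)
  mul_smul r r' s := ext' (fun i => by simp [mul_smul])
  smul_zero r := ext' (fun i => by simp)
  smul_add r s t := ext' (fun i => by simp)
  add_smul r r' s := ext' (fun i => by simp [add_smul])
  zero_smul s := ext' (fun i => by simp)

end S

variable (g M) in
/-- restriction of sections of the twist -/
noncomputable def resS {V V' : X.Opens} (h : V' ≤ V) : S g M V →+ S g M V' where
  toFun s := S.mk' (fun i => s.ev i (inf_le_left.trans h) inf_le_right) (by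
    intro i j W hV hi hj
    simp only [S.rs_ev]
    exact s.ev_eq i j _ hi hj)
  map_zero' := S.ext' (fun i => by simp)
  map_add' s t := S.ext' (fun i => by simp)

@[simp] theorem ev_resS {V V' : X.Opens} (h : V' ≤ V) (s : S g M V) (i : ι) {W : X.Opens}
    (hV : W ≤ V') (hi : W ≤ U i) : (resS g M h s).ev i hV hi = s.ev i (hV.trans h) hi := by
  change rs M _ (s.ev i (inf_le_left.trans h) inf_le_right) = _
  rw [S.rs_ev]

variable (g M) in
/-- explicit data of the twist -/
noncomputable def twData : MkData X where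
  S V := S g M V
  res h := resS g M h
  res_smul h r s := S.ext' (fun i => by simp)
  res_self h s := S.ext' (fun i => by simp)
  res_res h h' s := S.ext' (fun i => by simp)
  sep {κ V W} hW hV s t hst := by
    apply S.ext'
    intro i
    apply sec_ext M (U := fun k => W k ⊓ U i) (V := V ⊓ U i)
      (fun k => inf_le_inf_right _ (hW k)) (by
        rw [← iSup_inf_eq]
        exact inf_le_inf_right _ hV)
    intro k
    have h := congrArg (fun x => S.ev x i (inf_le_left : W k ⊓ U i ≤ W k) inf_le_right) (hst k)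
    simpa using h
  glue {κ V W} hW hV s hs := by
    have hcov : ∀ i, V ⊓ U i ≤ ⨆ k, W k ⊓ U i := fun i => by
      rw [← iSup_inf_eq]
      exact inf_le_inf_right _ hV
    have h1 : ∀ i, ∃ t : Γ(M, V ⊓ U i), ∀ k, rs M (inf_le_inf_right _ (hW k)) t =
        (s k).ev i (inf_le_left : W k ⊓ U i ≤ W k) inf_le_right := by
      intro i
      apply exists_glue M (U := fun k => W k ⊓ U i) (V := V ⊓ U i)
        (fun k => inf_le_inf_right _ (hW k)) (hcov i)
      intro k l
      have h := congrArg (fun x => S.ev x i (W := (W k ⊓ U i) ⊓ (W l ⊓ U i))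
        (inf_le_inf inf_le_left inf_le_left) (inf_le_left.trans inf_le_right)) (hs k l)
      simpa using h
    choose t ht using h1
    refine ⟨S.mk' t ?_, fun k => S.ext' (fun i => ?_)⟩
    · intro i j Z hV' hi hj
      apply sec_ext M (U := fun k => W k ⊓ Z) (V := Z) (fun k => inf_le_right) (by
        rw [← iSup_inf_eq]
        exact le_inf (hV'.trans hV) le_rfl)
      intro k
      have e : ∀ i (hi : Z ≤ U i), rs M (inf_le_right : W k ⊓ Z ≤ Z) (rs M (le_inf hV' hi) (t i))
          = (s k).ev i (inf_le_left : W k ⊓ Z ≤ W k) (inf_le_right.trans hi) := by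
        intro i hi
        rw [rs_rs, ← S.rs_ev (s k) i (W := W k ⊓ U i) inf_le_left inf_le_right
          (inf_le_inf_left _ hi), ← ht, rs_rs]
      rw [e i hi, rs_smul, e j hj, rO_v]
      exact (s k).ev_eq i j _ _ _
    · simp only [ev_resS, S.ev_mk']
      rw [ht]

end Coc

end Fdim
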